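import Pool.Agent.Work.MP_794bd6_an.Defs

set_option autoImplicit false
open MeasureTheory Filter Topology
open scoped ENNReal

namespace Pool.Agent.Work.MP_794bd6_an

noncomputable section

variable {α : Type*} [MeasurableSpace α]

lemma ae_iterate_eq {T : α → α} {μ : Measure α} (h : ∀ᵐ x ∂μ, T x = x) (n : ℕ) :
    ∀ᵐ x ∂μ, T^[n] x = x := by
  filter_upwards [h] with x hx
  exact Function.iterate_fixed hx n

lemma shannon_joint_of_fixed {T : α → α} {μ : Measure α} (h : ∀ᵐ x ∂μ, T x = x) {k : ℕ}
    (ξ : α → Fin k) {n : ℕ} (hn : 0 < n) :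
    shannon μ (joint T ξ n) = shannon μ ξ := by
  classical
  have hae : ∀ᵐ x ∂μ, ∀ j : Fin n, T^[j] x = x := by
    rw [ae_all_iff]
    intro j
    exact ae_iterate_eq h j
  have hcongr : ∀ b : Fin n → Fin k, μ.real (joint T ξ n ⁻¹' {b}) =
      μ.real {x | ∀ j, ξ x = b j} := by
    intro b
    apply measureReal_congr
    filter_upwards [hae] with x hx
    apply propext
    change (joint T ξ n x = b) ↔ (∀ j, ξ x = b j)
    rw [funext_iff]
    apply forall_congr'
    intro j
    rw [joint, hx j]
  unfold shannon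
  have hsub : ∑ b : Fin n → Fin k, Real.negMulLog (μ.real (joint T ξ n ⁻¹' {b})) =
      ∑ b ∈ Finset.univ.image (fun c : Fin k => (fun _ : Fin n => c)),
        Real.negMulLog (μ.real (joint T ξ n ⁻¹' {b})) := by
    symm
    apply Finset.sum_subset (Finset.subset_univ _)
    intro b _ hb
    rw [hcongr]
    have : {x | ∀ j, ξ x = b j} = ∅ := by
      rw [Set.eq_empty_iff_forall_notMem]
      intro x hx
      apply hb
      rw [Finset.mem_image]
      refine ⟨ξ x, Finset.mem_univ _, ?_⟩
      funext j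
      exact hx j
    rw [this]
    simp
  rw [hsub, Finset.sum_image]
  · apply Finset.sum_congr rfl
    intro c _
    rw [hcongr]
    congr 2
    ext x
    constructor
    · intro hx
      exact hx ⟨0, hn⟩
    · intro hx j
      exact hx
  · intro c _ c' _ hcc
    exact congrFun hcc ⟨0, hn⟩

lemma ksEntropy_of_fixed {T : α → α} {μ : Measure α} (h : ∀ᵐ x ∂μ, T x = x) :
    ksEntropy T μ = 0 := by
  unfold ksEntropy
  simp only [ENNReal.iSup_eq_zero]
  intro k ξ _
  apply Tendsto.limsup_eq
  have h1 : Tendsto (fun n : ℕ => (1 / (n : ℝ)) * shannon μ ξ) atTop (𝓝 0) := by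
    have := tendsto_one_div_atTop_nhds_zero_nat (𝕜 := ℝ)
    simpa using this.mul_const (shannon μ ξ)
  have h2 : Tendsto (fun n : ℕ => ENNReal.ofReal ((1 / (n : ℝ)) * shannon μ ξ)) atTop (𝓝 0) := by
    have := ENNReal.tendsto_ofReal h1
    simpa using this
  apply h2.congr'
  filter_upwards [eventually_gt_atTop 0] with n hn
  rw [shannon_joint_of_fixed h ξ hn]

end

end Pool.Agent.Work.MP_794bd6_an
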