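import Mathlib

set_option autoImplicit false
open MeasureTheory Filter Topology Manifold Bundle
open scoped ContDiff ENNReal

/-!
Definitions: Kolmogorov-Sinai entropy, Oseledets splittings, sum of positive exponents.
-/

namespace Pool.Agent.Work.MP_794bd6_an

noncomputable section

section Entropy

variable {α : Type*} [MeasurableSpace α]

/-- Shannon entropy of the finite partition `{ξ = b}` of a probability space. -/
def shannon {β : Type*} [Fintype β] (μ : Measure α) (ξ : α → β) : ℝ :=
  ∑ b : β, Real.negMulLog (μ.real (ξ ⁻¹' {b}))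

/-- The `n`-th joint partition `⋁_{j < n} T^{-j} ξ`, coded by itineraries. -/
def joint {β : Type*} (T : α → α) (ξ : α → β) (n : ℕ) (x : α) : Fin n → β :=
  fun j => ξ (T^[j] x)

/-- Kolmogorov-Sinai entropy of `T` with respect to the invariant measure `μ`: the supremum over
finite measurable partitions `ξ` of `lim (1/n) H(⋁_{j<n} T^{-j} ξ)`. -/
def ksEntropy (T : α → α) (μ : Measure α) : ℝ≥0∞ :=
  ⨆ (k : ℕ) (ξ : α → Fin k) (_ : Measurable ξ),
    limsup (fun n : ℕ => ENNReal.ofReal ((1 / (n : ℝ)) * shannon μ (joint T ξ n))) atTop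

end Entropy

section Exponents

variable {E : Type*} [NormedAddCommGroup E] [NormedSpace ℝ E]
  {H : Type*} [TopologicalSpace H] {I : ModelWithCorners ℝ E H}
  {M : Type*} [TopologicalSpace M] [ChartedSpace H M]

/-- The norm of a tangent vector in a Riemannian metric. -/
def tnorm (g : RiemannianMetric (fun x : M => TangentSpace I x)) (x : M) (u : TangentSpace I x) :
    ℝ := Real.sqrt (g.inner x u u)

/-- `V`, `χ` is an Oseledets splitting at `x` of the diffeomorphism `f`: the tangent space at `x` is
the direct sum of the nonzero subspaces `V i`, the numbers `χ i` are distinct, and every nonzero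
`u ∈ V i` has exponent `χ i` in forward and backward time. -/
structure IsOseledetsSplitting {n : WithTop ℕ∞} (g : RiemannianMetric (fun x : M => TangentSpace I x))
    (f : Diffeomorph I I M M n) (x : M) {ι : Type} [DecidableEq ι]
    (V : ι → Submodule ℝ (TangentSpace I x)) (χ : ι → ℝ) : Prop where
  isInternal : DirectSum.IsInternal V
  ne_bot : ∀ i, V i ≠ ⊥
  injective : Function.Injective χ
  forward : ∀ i, ∀ u ∈ V i, u ≠ 0 →
    Tendsto (fun m : ℕ => (1 / (m : ℝ)) *
      Real.log (tnorm g ((⇑f)^[m] x) (mfderiv I I ((⇑f)^[m]) x u))) atTop (𝓝 (χ i))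
  backward : ∀ i, ∀ u ∈ V i, u ≠ 0 →
    Tendsto (fun m : ℕ => (1 / (-(m : ℝ))) *
      Real.log (tnorm g ((⇑f.symm)^[m] x) (mfderiv I I ((⇑f.symm)^[m]) x u))) atTop (𝓝 (χ i))

/-- `s` is the sum of the positive characteristic exponents of `f` at `x`, with multiplicity. -/
def IsPosExponentSum {n : WithTop ℕ∞} (g : RiemannianMetric (fun x : M => TangentSpace I x))
    (f : Diffeomorph I I M M n) (x : M) (s : ℝ) : Prop :=
  ∃ (k : ℕ) (V : Fin k → Submodule ℝ (TangentSpace I x)) (χ : Fin k → ℝ),
    IsOseledetsSplitting g f x V χ ∧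
      s = ∑ i ∈ Finset.univ.filter (fun i => 0 < χ i), χ i * (Module.finrank ℝ (V i) : ℝ)

/-- Every invariant Borel probability measure `ρ` of the diffeomorphism `f` has entropy strictly
smaller than the integral of the sum `χp` of the positive exponents (which is defined `ρ`-almost
everywhere and integrable), whatever the inner products `g` on the tangent spaces. -/
def EntropyBelowExponents {n : WithTop ℕ∞} (f : Diffeomorph I I M M n) : Prop :=
  ∀ (g : RiemannianMetric (fun x : M => TangentSpace I x)) (_ : MeasurableSpace M)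
    (_ : BorelSpace M) (ρ : Measure M), IsProbabilityMeasure ρ → MeasurePreserving f ρ ρ →
      (∀ᵐ x ∂ρ, ∃ s, IsPosExponentSum g f x s) ∧
      ∀ χp : M → ℝ, (∀ᵐ x ∂ρ, IsPosExponentSum g f x (χp x)) →
        Integrable χp ρ ∧ ksEntropy f ρ < ENNReal.ofReal (∫ x, χp x ∂ρ)

end Exponents

end

end Pool.Agent.Work.MP_794bd6_an
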