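import Pool.Agent.Work.MP_794bd6_an.Defs

set_option autoImplicit false
set_option linter.unusedSectionVars false
open MeasureTheory Filter Topology Manifold Bundle
open scoped ContDiff

namespace Pool.Agent.Work.MP_794bd6_an

noncomputable section

variable {E : Type*} [NormedAddCommGroup E] [NormedSpace ℝ E] [FiniteDimensional ℝ E]
  {H : Type*} [TopologicalSpace H] {I : ModelWithCorners ℝ E H}
  {M : Type*} [TopologicalSpace M] [ChartedSpace H M] [IsManifold I 1 M]

/-- a continuous linear endomorphism of the model space seen between tangent spaces -/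
def castD (I : ModelWithCorners ℝ E H) (x y : M) (A : E →L[ℝ] E) :
    TangentSpace I x →L[ℝ] TangentSpace I y := A

/-- the tangent norm on the model space -/
def tn (g : RiemannianMetric (fun x : M => TangentSpace I x)) (x : M) (u : E) : ℝ :=
  tnorm g x (u : TangentSpace I x)

/-- the inner product as a bilinear map on the model space -/
def ginner (g : RiemannianMetric (fun x : M => TangentSpace I x)) (x : M) : E →L[ℝ] E →L[ℝ] ℝ :=
  g.inner x

lemma tn_eq (g : RiemannianMetric (fun x : M => TangentSpace I x)) (x : M) (u : E) :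
    tn g x u = Real.sqrt (ginner g x u u) := rfl

lemma ginner_pos (g : RiemannianMetric (fun x : M => TangentSpace I x)) (x : M) (u : E)
    (hu : u ≠ 0) : 0 < ginner g x u u := g.pos x u hu

lemma tn_nonneg (g : RiemannianMetric (fun x : M => TangentSpace I x)) (x : M) (u : E) :
    0 ≤ tn g x u := Real.sqrt_nonneg _

lemma tn_smul (g : RiemannianMetric (fun x : M => TangentSpace I x)) (x : M) (r : ℝ) (u : E) :
    tn g x (r • u) = |r| * tn g x u := by
  rw [tn_eq, tn_eq]
  have : ginner g x (r • u) (r • u) = r ^ 2 * ginner g x u u := by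
    simp only [map_smul, smul_apply, smul_eq_mul]
    ring
  rw [this, Real.sqrt_mul (sq_nonneg r), Real.sqrt_sq_eq_abs]

lemma tn_pos (g : RiemannianMetric (fun x : M => TangentSpace I x)) (x : M) (u : E)
    (hu : u ≠ 0) : 0 < tn g x u := Real.sqrt_pos.mpr (ginner_pos g x u hu)

lemma tn_equiv (g : RiemannianMetric (fun x : M => TangentSpace I x)) (x : M) :
    ∃ c C : ℝ, 0 < c ∧ 0 < C ∧ ∀ u : E, c * ‖u‖ ≤ tn g x u ∧ tn g x u ≤ C * ‖u‖ := by
  rcases subsingleton_or_nontrivial E with hE | hE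
  · refine ⟨1, 1, one_pos, one_pos, fun u => ?_⟩
    have : u = 0 := Subsingleton.elim _ _
    subst this
    simp [tn_eq]
  have hcont : Continuous (fun u : E => tn g x u) := by
    simp only [tn_eq]
    apply Real.continuous_sqrt.comp
    exact (ginner g x).continuous.clm_apply continuous_id
  have hcpt : IsCompact (Metric.sphere (0 : E) 1) := isCompact_sphere _ _
  have hne : (Metric.sphere (0 : E) 1).Nonempty := NormedSpace.sphere_nonempty.mpr zero_le_one
  obtain ⟨a, ha, hamin⟩ := hcpt.exists_isMinOn hne hcont.continuousOn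
  obtain ⟨b, hb, hbmax⟩ := hcpt.exists_isMaxOn hne hcont.continuousOn
  have ha0 : a ≠ 0 := by
    intro h
    rw [h] at ha
    simp at ha
  have hb0 : b ≠ 0 := by
    intro h
    rw [h] at hb
    simp at hb
  refine ⟨tn g x a, tn g x b, tn_pos g x a ha0, tn_pos g x b hb0, fun u => ?_⟩
  by_cases hu : u = 0
  · subst hu
    simp [tn_eq]
  have hn : 0 < ‖u‖ := norm_pos_iff.mpr hu
  have hu1 : (‖u‖⁻¹ • u) ∈ Metric.sphere (0 : E) 1 := by
    rw [mem_sphere_zero_iff_norm, norm_smul, norm_inv, norm_norm, inv_mul_cancel₀ hn.ne']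
  have h1 := hamin hu1
  have h2 := hbmax hu1
  simp only [Set.mem_ofPred_eq] at h1 h2
  rw [tn_smul, abs_of_pos (inv_pos.mpr hn)] at h1 h2
  constructor
  · have := mul_le_mul_of_nonneg_right h1 hn.le
    rwa [mul_assoc, mul_comm (tn g x u), ← mul_assoc, inv_mul_cancel₀ hn.ne', one_mul] at this
  · have := mul_le_mul_of_nonneg_right h2 hn.le
    rwa [mul_assoc, mul_comm (tn g x u), ← mul_assoc, inv_mul_cancel₀ hn.ne', one_mul] at this

/-- derivative of iterates at a fixed point -/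
lemma hasMFDerivAt_iterate {f : M → M} {x : M} (hx : f x = x) (A : E →L[ℝ] E)
    (hf : HasMFDerivAt I I f x (castD I x (f x) A)) (n : ℕ) :
    HasMFDerivAt I I (f^[n]) x (castD I x (f^[n] x) (A ^ n)) := by
  have hfix : ∀ n, f^[n] x = x := fun n => Function.iterate_fixed hx n
  induction n with
  | zero =>
    have := hasMFDerivAt_id (I := I) x
    exact this
  | succ n ih =>
    rw [Function.iterate_succ']
    have h1 : HasMFDerivAt I I f (f^[n] x) (castD I (f^[n] x) (f (f^[n] x)) A) := by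
      rw [hfix n]
      exact hf
    have h2 := h1.comp x ih
    have h3 : (castD I (f^[n] x) (f (f^[n] x)) A).comp (castD I x (f^[n] x) (A ^ n)) =
        castD I x ((f ∘ f^[n]) x) (A ^ (n + 1)) := by
      rw [pow_succ']
      rfl
    rw [← h3]
    exact h2

lemma mfderiv_iterate_apply {f : M → M} {x : M} (hx : f x = x) (A : E →L[ℝ] E)
    (hf : HasMFDerivAt I I f x (castD I x (f x) A)) (g : RiemannianMetric (fun x : M => TangentSpace I x))
    (n : ℕ) (u : E) :
    tnorm g (f^[n] x) (mfderiv I I (f^[n]) x (u : TangentSpace I x)) = tn g x ((A ^ n) u) := by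
  rw [(hasMFDerivAt_iterate hx A hf n).mfderiv]
  have hfix : f^[n] x = x := Function.iterate_fixed hx n
  have h : ∀ y : M, y = x → tnorm g y ((castD I x y (A ^ n)) (u : TangentSpace I x)) =
      tn g x ((A ^ n) u) := by
    intro y hy
    subst hy
    rfl
  exact h _ hfix

/-- growth rate from two-sided bounds -/
lemma tendsto_log_of_bounds {N : ℕ → ℝ} {c C r : ℝ} (hc : 0 < c) (hC : 0 < C) (hr : 0 < r)
    (h : ∀ m, c * r ^ m ≤ N m ∧ N m ≤ C * r ^ m) :
    Tendsto (fun m : ℕ => (1 / (m : ℝ)) * Real.log (N m)) atTop (𝓝 (Real.log r)) := by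
  have h1 : Tendsto (fun m : ℕ => (1 / (m : ℝ)) * Real.log c + Real.log r) atTop
      (𝓝 (Real.log r)) := by
    have := (tendsto_one_div_atTop_nhds_zero_nat (𝕜 := ℝ)).mul_const (Real.log c)
    simpa using this.add_const (Real.log r)
  have h2 : Tendsto (fun m : ℕ => (1 / (m : ℝ)) * Real.log C + Real.log r) atTop
      (𝓝 (Real.log r)) := by
    have := (tendsto_one_div_atTop_nhds_zero_nat (𝕜 := ℝ)).mul_const (Real.log C)
    simpa using this.add_const (Real.log r)
  refine tendsto_of_tendsto_of_tendsto_of_le_of_le' h1 h2 ?_ ?_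
  · filter_upwards [eventually_gt_atTop 0] with m hm
    have hm' : (0 : ℝ) < m := by exact_mod_cast hm
    have h3 : Real.log (c * r ^ m) ≤ Real.log (N m) :=
      Real.log_le_log (by positivity) (h m).1
    rw [Real.log_mul hc.ne' (by positivity), Real.log_pow] at h3
    have h4 := mul_le_mul_of_nonneg_left h3 (by positivity : 0 ≤ 1 / (m : ℝ))
    have h5 : 1 / (m : ℝ) * (Real.log c + m * Real.log r) =
      (1 / (m : ℝ)) * Real.log c + Real.log r := by
      field_simp
    linarith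
  · filter_upwards [eventually_gt_atTop 0] with m hm
    have hm' : (0 : ℝ) < m := by exact_mod_cast hm
    have hN : 0 < N m := lt_of_lt_of_le (by positivity) (h m).1
    have h3 : Real.log (N m) ≤ Real.log (C * r ^ m) :=
      Real.log_le_log hN (h m).2
    rw [Real.log_mul hC.ne' (by positivity), Real.log_pow] at h3
    have h4 := mul_le_mul_of_nonneg_left h3 (by positivity : 0 ≤ 1 / (m : ℝ))
    have h5 : 1 / (m : ℝ) * (Real.log C + m * Real.log r) =
      (1 / (m : ℝ)) * Real.log C + Real.log r := by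
      field_simp
    linarith

lemma tendsto_log_of_bounds_neg {N : ℕ → ℝ} {c C r : ℝ} (hc : 0 < c) (hC : 0 < C) (hr : 0 < r)
    (h : ∀ m, c * r⁻¹ ^ m ≤ N m ∧ N m ≤ C * r⁻¹ ^ m) :
    Tendsto (fun m : ℕ => (1 / (-(m : ℝ))) * Real.log (N m)) atTop (𝓝 (Real.log r)) := by
  have h1 := (tendsto_log_of_bounds hc hC (inv_pos.mpr hr) h).neg
  rw [Real.log_inv, neg_neg] at h1
  refine h1.congr (fun m => ?_)
  rw [one_div, one_div, inv_neg]
  ring

/-- A fixed point with a vector growing exponentially has positive exponent sum. -/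
lemma pos_of_growth {n : WithTop ℕ∞} (f : Diffeomorph I I M M n) {x : M} (hx : f x = x)
    (A : E →L[ℝ] E) (hf : HasMFDerivAt I I f x (castD I x (f x) A))
    (g : RiemannianMetric (fun x : M => TangentSpace I x)) (u0 : E) {c ρ : ℝ} (hc : 0 < c)
    (hρ : 1 < ρ) (hgrow : ∀ m : ℕ, c * ρ ^ m ≤ ‖(A ^ m) u0‖) {s : ℝ}
    (hs : IsPosExponentSum g f x s) : 0 < s := by
  obtain ⟨k, V, χ, hV, rfl⟩ := hs
  have hex : ∃ i, 0 < χ i := by
    by_contra hcon
    push Not at hcon
    -- decompose `u0`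
    have htop : (⨆ i, V i) = ⊤ := hV.isInternal.submodule_iSup_eq_top
    have hmem : ∀ w : TangentSpace I x, w ∈ ⨆ i ∈ (Finset.univ : Finset (Fin k)), V i := by
      intro w
      simp only [Finset.mem_univ, iSup_pos]
      rw [htop]
      exact Submodule.mem_top
    obtain ⟨μ, hμ⟩ := (Submodule.mem_iSup_finset_iff_exists_sum V _).mp (hmem u0)
    let v : Fin k → E := fun i => ((μ i : TangentSpace I x) : E)
    have hsum : ∑ i, v i = u0 := hμ
    obtain ⟨c0, C0, hc0, hC0, hbd⟩ := tn_equiv g x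
    have hlog : 0 < Real.log ρ := Real.log_pos hρ
    have hev : ∀ i : Fin k, ∀ᶠ m : ℕ in atTop,
        tn g x ((A ^ m) (v i)) ≤ Real.exp ((m : ℝ) * (Real.log ρ / 2)) := by
      intro i
      by_cases hvi : v i = 0
      · filter_upwards with m
        rw [hvi, map_zero]
        have : tn g x (0 : E) = 0 := by simp [tn_eq]
        rw [this]
        positivity
      · have h1 := hV.forward i (μ i) (μ i).2 hvi
        have h2 : ∀ m : ℕ, tnorm g ((⇑f)^[m] x) (mfderiv I I ((⇑f)^[m]) x (μ i)) =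
            tn g x ((A ^ m) (v i)) := fun m => mfderiv_iterate_apply hx A hf g m (v i)
        simp only [h2] at h1
        have h3 : χ i < Real.log ρ / 2 := lt_of_le_of_lt (hcon i) (by positivity)
        filter_upwards [h1.eventually (gt_mem_nhds h3), eventually_gt_atTop 0] with m hm hm0
        have hm' : (0 : ℝ) < m := by exact_mod_cast hm0
        rcases (tn_nonneg g x ((A ^ m) (v i))).eq_or_lt with h0 | h0
        · rw [← h0]; positivity
        · rw [← Real.log_le_iff_le_exp h0]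
          rw [one_div, inv_mul_lt_iff₀ hm'] at hm
          exact hm.le
    have hev2 : ∀ᶠ m : ℕ in atTop, ∀ i : Fin k,
        tn g x ((A ^ m) (v i)) ≤ Real.exp ((m : ℝ) * (Real.log ρ / 2)) := by
      rw [eventually_all]
      exact hev
    have hev3 : ∀ᶠ m : ℕ in atTop,
        c * Real.exp ((m : ℝ) * (Real.log ρ / 2)) ≤ c0⁻¹ * k := by
      filter_upwards [hev2] with m hm
      have h1 := hgrow m
      have h2 : ‖(A ^ m) u0‖ ≤ c0⁻¹ * k * Real.exp ((m : ℝ) * (Real.log ρ / 2)) := by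
        rw [← hsum, map_sum]
        calc ‖∑ i, (A ^ m) (v i)‖ ≤ ∑ i, ‖(A ^ m) (v i)‖ := norm_sum_le _ _
          _ ≤ ∑ i : Fin k, c0⁻¹ * Real.exp ((m : ℝ) * (Real.log ρ / 2)) := by
            apply Finset.sum_le_sum
            intro i _
            have h3 := (hbd ((A ^ m) (v i))).1
            rw [le_inv_mul_iff₀ hc0]
            exact h3.trans (hm i)
          _ = _ := by
            rw [Finset.sum_const, Finset.card_univ, Fintype.card_fin, nsmul_eq_mul]
            ring
      have h4 : ρ ^ m = Real.exp ((m : ℝ) * (Real.log ρ / 2)) *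
          Real.exp ((m : ℝ) * (Real.log ρ / 2)) := by
        rw [← Real.exp_add]
        have : (m : ℝ) * (Real.log ρ / 2) + (m : ℝ) * (Real.log ρ / 2) = m * Real.log ρ := by ring
        rw [this, Real.exp_nat_mul, Real.exp_log (by linarith)]
      have h5 := h1.trans h2
      rw [h4, ← mul_assoc] at h5
      exact le_of_mul_le_mul_right h5 (Real.exp_pos _)
    have htend : Tendsto (fun m : ℕ => c * Real.exp ((m : ℝ) * (Real.log ρ / 2))) atTop atTop := by
      apply Tendsto.const_mul_atTop hc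
      apply Real.tendsto_exp_atTop.comp
      apply Tendsto.atTop_mul_const (by positivity)
      exact tendsto_natCast_atTop_atTop
    obtain ⟨m, hm1, hm2⟩ := (hev3.and (htend.eventually_gt_atTop (c0⁻¹ * k))).exists
    linarith
  obtain ⟨i0, hi0⟩ := hex
  apply Finset.sum_pos'
  · intro i hi
    rw [Finset.mem_filter] at hi
    exact mul_nonneg hi.2.le (Nat.cast_nonneg _)
  · refine ⟨i0, by simp [hi0], ?_⟩
    have hne : V i0 ≠ ⊥ := hV.ne_bot i0
    have hfin : FiniteDimensional ℝ (TangentSpace I x) := inferInstanceAs (FiniteDimensional ℝ E)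
    have : 0 < Module.finrank ℝ (V i0) := by
      rw [Module.finrank_pos_iff]
      exact Submodule.nontrivial_iff_ne_bot.mpr hne
    have h2 : (0 : ℝ) < (Module.finrank ℝ (V i0) : ℝ) := by exact_mod_cast this
    exact mul_pos hi0 h2

/-- a submodule of the model space seen in a tangent space -/
def castV (I : ModelWithCorners ℝ E H) (x : M) (W : Submodule ℝ E) :
    Submodule ℝ (TangentSpace I x) := W

/-- An Oseledets splitting at a fixed point from uniform bounds. -/
lemma splitting_of_bounds {n : WithTop ℕ∞} (f : Diffeomorph I I M M n) {x : M} (hx : f x = x)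
    (hx' : f.symm x = x) (A A' : E →L[ℝ] E) (hf : HasMFDerivAt I I f x (castD I x (f x) A))
    (hf' : HasMFDerivAt I I f.symm x (castD I x (f.symm x) A'))
    (g : RiemannianMetric (fun x : M => TangentSpace I x)) {k : ℕ} (V : Fin k → Submodule ℝ E)
    (hint : DirectSum.IsInternal V) (hne : ∀ i, V i ≠ ⊥) (r : Fin k → ℝ) (hr : ∀ i, 0 < r i)
    (hinj : Function.Injective r) {c C : ℝ} (hc : 0 < c) (hC : 0 < C)
    (hbd : ∀ i, ∀ u ∈ V i, ∀ m : ℕ, c * r i ^ m * ‖u‖ ≤ ‖(A ^ m) u‖ ∧
      ‖(A ^ m) u‖ ≤ C * r i ^ m * ‖u‖)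
    (hbd' : ∀ i, ∀ u ∈ V i, ∀ m : ℕ, c * (r i)⁻¹ ^ m * ‖u‖ ≤ ‖(A' ^ m) u‖ ∧
      ‖(A' ^ m) u‖ ≤ C * (r i)⁻¹ ^ m * ‖u‖) :
    ∃ s, IsPosExponentSum g f x s := by
  obtain ⟨c0, C0, hc0, hC0, hb⟩ := tn_equiv g x
  refine ⟨_, k, fun i => castV I x (V i), fun i => Real.log (r i), ⟨hint, hne, ?_, ?_, ?_⟩, rfl⟩
  · intro i j hij
    exact hinj (Real.log_injOn_pos (hr i) (hr j) hij)
  · have key : ∀ (i : Fin k) (u : E), u ∈ V i → u ≠ 0 → Tendsto (fun m : ℕ => (1 / (m : ℝ)) *
        Real.log (tn g x ((A ^ m) u))) atTop (𝓝 (Real.log (r i))) := by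
      intro i u hu hu0
      have hun : 0 < ‖u‖ := norm_pos_iff.mpr hu0
      apply tendsto_log_of_bounds (c := c0 * c * ‖u‖) (C := C0 * C * ‖u‖)
        (by positivity) (by positivity) (hr i)
      intro m
      have h3 := hbd i u hu m
      have h4 := hb ((A ^ m) u)
      constructor
      · calc c0 * c * ‖u‖ * r i ^ m = c0 * (c * r i ^ m * ‖u‖) := by ring
          _ ≤ c0 * ‖(A ^ m) u‖ := mul_le_mul_of_nonneg_left h3.1 hc0.le
          _ ≤ _ := h4.1
      · calc tn g x ((A ^ m) u) ≤ C0 * ‖(A ^ m) u‖ := h4.2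
          _ ≤ C0 * (C * r i ^ m * ‖u‖) := mul_le_mul_of_nonneg_left h3.2 hC0.le
          _ = _ := by ring
    intro i u hu hu0
    have h2 : ∀ m : ℕ, tnorm g ((⇑f)^[m] x) (mfderiv I I ((⇑f)^[m]) x u) =
            tn g x ((A ^ m) u) := fun m => mfderiv_iterate_apply hx A hf g m u
    simp only [h2]
    exact key i u hu hu0
  · have key : ∀ (i : Fin k) (u : E), u ∈ V i → u ≠ 0 → Tendsto (fun m : ℕ => (1 / (-(m : ℝ))) *
        Real.log (tn g x ((A' ^ m) u))) atTop (𝓝 (Real.log (r i))) := by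
      intro i u hu hu0
      have hun : 0 < ‖u‖ := norm_pos_iff.mpr hu0
      apply tendsto_log_of_bounds_neg (c := c0 * c * ‖u‖) (C := C0 * C * ‖u‖)
        (by positivity) (by positivity) (hr i)
      intro m
      have h3 := hbd' i u hu m
      have h4 := hb ((A' ^ m) u)
      constructor
      · calc c0 * c * ‖u‖ * (r i)⁻¹ ^ m = c0 * (c * (r i)⁻¹ ^ m * ‖u‖) := by ring
          _ ≤ c0 * ‖(A' ^ m) u‖ := mul_le_mul_of_nonneg_left h3.1 hc0.le
          _ ≤ _ := h4.1
      · calc tn g x ((A' ^ m) u) ≤ C0 * ‖(A' ^ m) u‖ := h4.2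
          _ ≤ C0 * (C * (r i)⁻¹ ^ m * ‖u‖) := mul_le_mul_of_nonneg_left h3.2 hC0.le
          _ = _ := by ring
    intro i u hu hu0
    have h2 : ∀ m : ℕ, tnorm g ((⇑f.symm)^[m] x) (mfderiv I I ((⇑f.symm)^[m]) x u) =
            tn g x ((A' ^ m) u) := fun m => mfderiv_iterate_apply hx' A' hf' g m u
    simp only [h2]
    exact key i u hu hu0

/-- powers at an eigenvector -/
lemma pow_eigen (A : E →L[ℝ] E) {e : E} {a : ℝ} (h : A e = a • e) (m : ℕ) :
    (A ^ m) e = a ^ m • e := by
  induction m with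
  | zero => simp
  | succ m ih =>
    rw [pow_succ', mul_apply_eq_comp, ih, map_smul, h, smul_smul, pow_succ]

/-- bounds on the line spanned by an eigenvector -/
lemma bounds_eigen (A : E →L[ℝ] E) {e : E} {a : ℝ} (ha : 0 < a) (h : A e = a • e) (u : E)
    (hu : u ∈ Submodule.span ℝ {e}) (m : ℕ) :
    1 * a ^ m * ‖u‖ ≤ ‖(A ^ m) u‖ ∧ ‖(A ^ m) u‖ ≤ 1 * a ^ m * ‖u‖ := by
  obtain ⟨t, rfl⟩ := Submodule.mem_span_singleton.mp hu
  have h1 : (A ^ m) (t • e) = a ^ m • (t • e) := by
    rw [map_smul, pow_eigen A h, smul_comm]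
  have h2 : ‖(A ^ m) (t • e)‖ = 1 * a ^ m * ‖t • e‖ := by
    rw [h1, norm_smul, Real.norm_eq_abs, abs_of_pos (pow_pos ha m), one_mul]
  exact ⟨h2.ge, h2.le⟩

/-- Splitting at a saddle or node with distinct positive eigenvalues. -/
lemma splitting_diag {n : WithTop ℕ∞} (f : Diffeomorph I I M M n) {x : M} (hx : f x = x)
    (hx' : f.symm x = x) (A A' : E →L[ℝ] E) (hf : HasMFDerivAt I I f x (castD I x (f x) A))
    (hf' : HasMFDerivAt I I f.symm x (castD I x (f.symm x) A'))
    (hAA : ∀ u, A' (A u) = u)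
    (g : RiemannianMetric (fun x : M => TangentSpace I x)) (b : Fin 2 → E)
    (hli : LinearIndependent ℝ b) (hsp : Submodule.span ℝ (Set.range b) = ⊤) (r : Fin 2 → ℝ)
    (hr : ∀ i, 0 < r i) (hinj : Function.Injective r) (hA : ∀ i, A (b i) = r i • b i) :
    ∃ s, IsPosExponentSum g f x s := by
  have hA' : ∀ i, A' (b i) = (r i)⁻¹ • b i := by
    intro i
    have h1 := hAA (b i)
    rw [hA, map_smul] at h1
    rw [eq_inv_smul_iff₀ (hr i).ne']
    exact h1
  have hb0 : ∀ i, b i ≠ 0 := fun i => hli.ne_zero i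
  refine splitting_of_bounds f hx hx' A A' hf hf' g (fun i => Submodule.span ℝ {b i}) ?_ ?_ r hr
    hinj (c := 1) (C := 1) one_pos one_pos ?_ ?_
  · apply DirectSum.isInternal_submodule_of_iSupIndep_of_iSup_eq_top
    · exact hli.iSupIndep_span_singleton
    · rw [← Submodule.span_range_eq_iSup]
      exact hsp
  · intro i
    rw [Ne, Submodule.span_singleton_eq_bot]
    exact hb0 i
  · intro i u hu m
    exact bounds_eigen A (hr i) (hA i) u hu m
  · intro i u hu m
    exact bounds_eigen A' (inv_pos.mpr (hr i)) (hA' i) u hu m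

/-- A positive definite quadratic form is comparable with the norm. -/
lemma quad_equiv (q : E → ℝ) (hcont : Continuous q) (hpos : ∀ u, u ≠ 0 → 0 < q u)
    (hhom : ∀ (t : ℝ) (u : E), q (t • u) = t ^ 2 * q u) :
    ∃ c C : ℝ, 0 < c ∧ 0 < C ∧ ∀ u : E, c * ‖u‖ ^ 2 ≤ q u ∧ q u ≤ C * ‖u‖ ^ 2 := by
  have hq0 : q 0 = 0 := by
    have := hhom 0 0
    simpa using this
  rcases subsingleton_or_nontrivial E with hE | hE
  · refine ⟨1, 1, one_pos, one_pos, fun u => ?_⟩
    have : u = 0 := Subsingleton.elim _ _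
    subst this
    simp [hq0]
  have hcpt : IsCompact (Metric.sphere (0 : E) 1) := isCompact_sphere _ _
  have hne : (Metric.sphere (0 : E) 1).Nonempty := NormedSpace.sphere_nonempty.mpr zero_le_one
  obtain ⟨a, ha, hamin⟩ := hcpt.exists_isMinOn hne hcont.continuousOn
  obtain ⟨b, hb, hbmax⟩ := hcpt.exists_isMaxOn hne hcont.continuousOn
  have ha0 : a ≠ 0 := by
    intro h
    rw [h] at ha
    simp at ha
  have hb0 : b ≠ 0 := by
    intro h
    rw [h] at hb
    simp at hb
  refine ⟨q a, q b, hpos a ha0, hpos b hb0, fun u => ?_⟩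
  by_cases hu : u = 0
  · subst hu
    simp [hq0]
  have hn : 0 < ‖u‖ := norm_pos_iff.mpr hu
  have hu1 : (‖u‖⁻¹ • u) ∈ Metric.sphere (0 : E) 1 := by
    rw [mem_sphere_zero_iff_norm, norm_smul, norm_inv, norm_norm, inv_mul_cancel₀ hn.ne']
  have h1 := hamin hu1
  have h2 := hbmax hu1
  simp only [Set.mem_ofPred_eq] at h1 h2
  have h3 : q u = ‖u‖ ^ 2 * q (‖u‖⁻¹ • u) := by
    rw [hhom, ← mul_assoc, ← mul_pow, mul_inv_cancel₀ hn.ne', one_pow, one_mul]
  rw [h3]
  constructor
  · rw [mul_comm]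
    exact mul_le_mul_of_nonneg_left h1 (sq_nonneg _)
  · rw [mul_comm (q b)]
    exact mul_le_mul_of_nonneg_left h2 (sq_nonneg _)

lemma conf_bounds (A : E →L[ℝ] E) (q : E → ℝ) (hcont : Continuous q) (hpos : ∀ u, u ≠ 0 → 0 < q u)
    (hhom : ∀ (t : ℝ) (u : E), q (t • u) = t ^ 2 * q u) {ρ : ℝ} (hρ : 0 < ρ)
    (hA : ∀ u, q (A u) = ρ ^ 2 * q u) :
    ∃ c C : ℝ, 0 < c ∧ 0 < C ∧ ∀ (u : E) (m : ℕ), c * ρ ^ m * ‖u‖ ≤ ‖(A ^ m) u‖ ∧
      ‖(A ^ m) u‖ ≤ C * ρ ^ m * ‖u‖ := by
  obtain ⟨c, C, hc, hC, hb⟩ := quad_equiv q hcont hpos hhom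
  have hpow : ∀ (m : ℕ) (u : E), q ((A ^ m) u) = (ρ ^ m) ^ 2 * q u := by
    intro m
    induction m with
    | zero => intro u; simp
    | succ m ih =>
      intro u
      rw [pow_succ', mul_apply_eq_comp, hA, ih, pow_succ]
      ring
  refine ⟨Real.sqrt (c / C), Real.sqrt (C / c), by positivity, by positivity, fun u m => ⟨?_, ?_⟩⟩
  · apply le_of_sq_le_sq _ (norm_nonneg _)
    have h1 := (hb ((A ^ m) u)).2
    rw [hpow] at h1
    have h2 := (hb u).1
    have h3 : (ρ ^ m) ^ 2 * (c * ‖u‖ ^ 2) ≤ C * ‖(A ^ m) u‖ ^ 2 :=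
      (mul_le_mul_of_nonneg_left h2 (sq_nonneg _)).trans h1
    rw [mul_pow, mul_pow, Real.sq_sqrt (by positivity), div_mul_eq_mul_div, div_mul_eq_mul_div,
      div_le_iff₀ hC]
    linarith
  · apply le_of_sq_le_sq _ (by positivity)
    have h1 := (hb ((A ^ m) u)).1
    rw [hpow] at h1
    have h2 := (hb u).2
    have h3 : c * ‖(A ^ m) u‖ ^ 2 ≤ (ρ ^ m) ^ 2 * (C * ‖u‖ ^ 2) :=
      h1.trans (mul_le_mul_of_nonneg_left h2 (sq_nonneg _))
    rw [mul_pow, mul_pow, Real.sq_sqrt (by positivity), div_mul_eq_mul_div, div_mul_eq_mul_div,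
      le_div_iff₀ hc]
    linarith

/-- Splitting with one exponent at a conformal fixed point. -/
lemma splitting_conf {n : WithTop ℕ∞} (f : Diffeomorph I I M M n) {x : M} (hx : f x = x)
    (hx' : f.symm x = x) (A A' : E →L[ℝ] E) (hf : HasMFDerivAt I I f x (castD I x (f x) A))
    (hf' : HasMFDerivAt I I f.symm x (castD I x (f.symm x) A'))
    (hAA : ∀ u, A' (A u) = u) [Nontrivial E]
    (g : RiemannianMetric (fun x : M => TangentSpace I x))
    (q : E → ℝ) (hcont : Continuous q) (hpos : ∀ u, u ≠ 0 → 0 < q u)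
    (hhom : ∀ (t : ℝ) (u : E), q (t • u) = t ^ 2 * q u) {ρ : ℝ} (hρ : 0 < ρ)
    (hA : ∀ u, q (A u) = ρ ^ 2 * q u) :
    ∃ s, IsPosExponentSum g f x s := by
  have hAA2 : ∀ u, A (A' u) = u := by
    have hinj : Function.Injective A := fun u v huv => by
      rw [← hAA u, ← hAA v, huv]
    have hsurj : Function.Surjective A :=
      (LinearMap.injective_iff_surjective (f := (A : E →ₗ[ℝ] E))).mp hinj
    intro u
    obtain ⟨v, rfl⟩ := hsurj u
    rw [hAA]
  have hA' : ∀ u, q (A' u) = (ρ⁻¹) ^ 2 * q u := by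
    intro u
    have := hA (A' u)
    rw [hAA2] at this
    rw [this, ← mul_assoc, ← mul_pow, inv_mul_cancel₀ hρ.ne', one_pow, one_mul]
  obtain ⟨c, C, hc, hC, hb⟩ := conf_bounds A q hcont hpos hhom hρ hA
  obtain ⟨c', C', hc', hC', hb'⟩ := conf_bounds A' q hcont hpos hhom (inv_pos.mpr hρ) hA'
  refine splitting_of_bounds f hx hx' A A' hf hf' g (k := 1) (fun _ => ⊤) ?_ ?_ (fun _ => ρ)
    (fun _ => hρ) (fun i j _ => Subsingleton.elim i j) (c := min c c') (C := max C C')
    (lt_min hc hc') (lt_max_of_lt_left hC) ?_ ?_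
  · apply DirectSum.isInternal_submodule_of_iSupIndep_of_iSup_eq_top
    · exact iSupIndep_subsingleton _
    · simp
  · intro i
    exact top_ne_bot
  · intro i u _ m
    have := hb u m
    constructor
    · refine le_trans ?_ this.1
      gcongr
      exact min_le_left _ _
    · refine this.2.trans ?_
      gcongr
      exact le_max_left _ _
  · intro i u _ m
    have := hb' u m
    constructor
    · refine le_trans ?_ this.1
      gcongr
      exact min_le_right _ _
    · refine this.2.trans ?_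
      gcongr
      exact le_max_right _ _

end

end Pool.Agent.Work.MP_794bd6_an
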