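import Pool.Agent.Work.MP_794bd6_an.Dyn
import Pool.Agent.Work.MP_794bd6_an.Exps

set_option autoImplicit false
open Complex Set Filter Topology Manifold Bundle
open scoped ContDiff

namespace Pool.Agent.Work.MP_794bd6_an

noncomputable section

attribute [local instance] finrank_real_complex_fact'

abbrev E1 := EuclideanSpace ℝ (Fin 1)
abbrev E2 := EuclideanSpace ℝ (Fin 1) × EuclideanSpace ℝ (Fin 1)

/-- derivative of the inclusion of the circle -/
def B1 (z : Circle) : E1 →L[ℝ] ℂ := mfderiv (𝓡 1) 𝓘(ℝ, ℂ) ic z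

lemma hasMFDerivAt_ic (z : Circle) : HasMFDerivAt (𝓡 1) 𝓘(ℝ, ℂ) ic z (B1 z) :=
  ((contMDiff_ic (n := ω) z).mdifferentiableAt (by decide)).hasMFDerivAt

/-- derivative of the inclusion of the torus -/
def BB (x : Circle × Circle) : E2 →L[ℝ] ℂ × ℂ := mfderiv IT 𝓘(ℝ, ℂ × ℂ) icc x

lemma hasMFDerivAt_icc (x : Circle × Circle) : HasMFDerivAt IT 𝓘(ℝ, ℂ × ℂ) icc x (BB x) :=
  ((contMDiff_icc (n := ω) x).mdifferentiableAt (by decide)).hasMFDerivAt

lemma BB_fst (x : Circle × Circle) (u : E2) : (BB x u).1 = B1 x.1 u.1 := by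
  have h1 : HasMFDerivAt IT 𝓘(ℝ, ℂ) ((Prod.fst : ℂ × ℂ → ℂ) ∘ icc) x
      ((ContinuousLinearMap.fst ℝ ℂ ℂ).comp (BB x)) :=
    ((ContinuousLinearMap.fst ℝ ℂ ℂ).hasFDerivAt.hasMFDerivAt).comp x (hasMFDerivAt_icc x)
  have h2 : HasMFDerivAt IT 𝓘(ℝ, ℂ) (ic ∘ Prod.fst) x
      ((B1 x.1).comp (ContinuousLinearMap.fst ℝ E1 E1)) :=
    (hasMFDerivAt_ic x.1).comp x (hasMFDerivAt_fst x)
  have h3 : ((Prod.fst : ℂ × ℂ → ℂ) ∘ icc) = ic ∘ Prod.fst := rfl
  rw [h3] at h1
  have h4 := hasMFDerivAt_unique h1 h2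
  exact congrArg (fun (L : E2 →L[ℝ] ℂ) => L u) h4

lemma BB_snd (x : Circle × Circle) (u : E2) : (BB x u).2 = B1 x.2 u.2 := by
  have h1 : HasMFDerivAt IT 𝓘(ℝ, ℂ) ((Prod.snd : ℂ × ℂ → ℂ) ∘ icc) x
      ((ContinuousLinearMap.snd ℝ ℂ ℂ).comp (BB x)) :=
    ((ContinuousLinearMap.snd ℝ ℂ ℂ).hasFDerivAt.hasMFDerivAt).comp x (hasMFDerivAt_icc x)
  have h2 : HasMFDerivAt IT 𝓘(ℝ, ℂ) (ic ∘ Prod.snd) x
      ((B1 x.2).comp (ContinuousLinearMap.snd ℝ E1 E1)) :=
    (hasMFDerivAt_ic x.2).comp x (hasMFDerivAt_snd x)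
  have h3 : ((Prod.snd : ℂ × ℂ → ℂ) ∘ icc) = ic ∘ Prod.snd := rfl
  rw [h3] at h1
  have h4 := hasMFDerivAt_unique h1 h2
  exact congrArg (fun (L : E2 →L[ℝ] ℂ) => L u) h4

lemma B1_injective (z : Circle) : Function.Injective (B1 z) :=
  mfderiv_coe_sphere_injective (E := ℂ) (n := 1) z

lemma B1_range (z : Circle) : ∃ e : E1, B1 z e = I * (z : ℂ) := by
  have h : (B1 z).range = (Submodule.span ℝ {(z : ℂ)})ᗮ := range_mfderiv_coe_sphere (E := ℂ) (n := 1) z
  have h2 : I * (z : ℂ) ∈ (Submodule.span ℝ {(z : ℂ)})ᗮ := by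
    rw [Submodule.mem_orthogonal_singleton_iff_inner_right]
    rw [Complex.inner]
    simp
    ring
  rw [← h] at h2
  exact h2

/-- tangent vector of the circle pointing in the positive direction -/
def tv (z : Circle) : E1 := Classical.choose (B1_range z)

lemma B1_tv (z : Circle) : B1 z (tv z) = I * (z : ℂ) := Classical.choose_spec (B1_range z)

/-- the two coordinate tangent vectors -/
def bv (x : Circle × Circle) : Fin 2 → E2 := ![(tv x.1, 0), (0, tv x.2)]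

lemma BB_bv0 (x : Circle × Circle) : BB x (bv x 0) = (I * (x.1 : ℂ), 0) := by
  apply Prod.ext
  · rw [BB_fst]
    simp [bv, B1_tv]
  · rw [BB_snd]
    simp [bv]

lemma BB_bv1 (x : Circle × Circle) : BB x (bv x 1) = (0, I * (x.2 : ℂ)) := by
  apply Prod.ext
  · rw [BB_fst]
    simp [bv]
  · rw [BB_snd]
    simp [bv, B1_tv]

lemma BB_injective (x : Circle × Circle) : Function.Injective (BB x) := by
  intro u v huv
  apply Prod.ext
  · apply B1_injective x.1
    rw [← BB_fst, ← BB_fst, huv]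
  · apply B1_injective x.2
    rw [← BB_snd, ← BB_snd, huv]

lemma I_mul_ne (z : Circle) : I * (z : ℂ) ≠ 0 := mul_ne_zero I_ne_zero z.coe_ne_zero

lemma bv_li (x : Circle × Circle) : LinearIndependent ℝ (bv x) := by
  have h0 : bv x 0 ≠ 0 := by
    intro h
    have := BB_bv0 x
    rw [h, map_zero] at this
    exact I_mul_ne x.1 (congrArg Prod.fst this).symm
  have hb : bv x = ![bv x 0, bv x 1] := by
    funext i
    fin_cases i <;> rfl
  rw [hb, LinearIndependent.pair_iff' h0]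
  intro a h
  have h1 := congrArg (BB x) h
  rw [map_smul, BB_bv0, BB_bv1] at h1
  have h2 := congrArg Prod.snd h1
  simp at h2

lemma bv_span (x : Circle × Circle) : Submodule.span ℝ (Set.range (bv x)) = ⊤ := by
  apply (bv_li x).span_eq_top_of_card_eq_finrank'
  simp

/-- the chain rule at a fixed point -/
lemma chain_fixed (G : Circle × Circle → Circle × Circle) {x : Circle × Circle} (hx : G x = x)
    (A : E2 →L[ℝ] E2) (hG : HasMFDerivAt IT IT G x (castD IT x (G x) A))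
    (Gt : ℂ × ℂ → ℂ × ℂ) (D : ℂ × ℂ →L[ℝ] ℂ × ℂ) (hD : HasFDerivAt Gt D (icc x))
    (hcomm : ∀ y, icc (G y) = Gt (icc y)) (u : E2) : BB x (A u) = D (BB x u) := by
  have h0 := hasMFDerivAt_icc (G x)
  have h1 := h0.comp x hG
  have h2 := (hD.hasMFDerivAt).comp x (hasMFDerivAt_icc x)
  have h3 : icc ∘ G = Gt ∘ icc := funext hcomm
  rw [h3] at h1
  have h4 := hasMFDerivAt_unique h1 h2
  have h5 : BB (G x) (A u) = D (BB x u) := congrArg (fun (L : E2 →L[ℝ] ℂ × ℂ) => L u) h4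
  rw [hx] at h5
  exact h5

/-- derivative along a line -/
lemma deriv_line {Gt : ℂ × ℂ → ℂ × ℂ} {D : ℂ × ℂ →L[ℝ] ℂ × ℂ} {p : ℂ × ℂ}
    (hD : HasFDerivAt Gt D p) (v v' : ℂ × ℂ)
    (h : HasDerivAt (fun t : ℝ => Gt (p + t • v)) v' 0) : D v = v' := by
  have h1 : HasDerivAt (fun t : ℝ => p + t • v) v 0 := by
    have := ((hasDerivAt_id (0 : ℝ)).smul_const v).const_add p
    simpa using this
  have h2 : HasFDerivAt Gt D (p + (0 : ℝ) • v) := by simpa using hD
  have h3 := h2.comp_hasDerivAt (0 : ℝ) h1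
  exact h3.unique h

/-! Derivatives of the three factors. -/

/-- extension of the shear -/
def shT (e : ℝ) (q : ℂ × ℂ) : ℂ × ℂ :=
  ((q.1 + ((e * q.2.re : ℝ) : ℂ)) / (1 + ((e * q.2.re : ℝ) : ℂ) * q.1), q.2)

lemma shT_differentiableAt (e : ℝ) (he : |e| < 1) (x : Circle × Circle) :
    DifferentiableAt ℝ (shT e) (icc x) := by
  have h1 := (contDiffAt_mob e (icc x) (mob_den_ne (mul_re_lt he x.2) x.1)
      (n := 1)).differentiableAt (by decide)
  exact h1.prodMk differentiableAt_snd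

lemma icc_sh (e : ℝ) (he : |e| < 1) (y : Circle × Circle) : icc (sh e he y) = shT e (icc y) := rfl

lemma hasDerivAt_mob_aux (n d : ℝ → ℂ) (n' d' : ℂ) (hn : HasDerivAt n n' 0)
    (hd : HasDerivAt d d' 0) (h0 : d 0 ≠ 0) :
    HasDerivAt (fun t => n t / d t) ((n' * d 0 - n 0 * d') / d 0 ^ 2) 0 := hn.div hd h0

/-- derivative of the Mobius map along the circle -/
lemma mob_line1 (z a : ℂ) (hden : (1 : ℂ) + a * z ≠ 0) :
    HasDerivAt (fun t : ℝ => (z + t • (I * z) + a) / (1 + a * (z + t • (I * z))))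
      ((1 - a ^ 2) / (1 + a * z) ^ 2 * (I * z)) 0 := by
  have h1 : HasDerivAt (fun t : ℝ => z + t • (I * z) + a) (I * z) 0 := by
    have := (((hasDerivAt_id (0 : ℝ)).smul_const (I * z)).const_add z).add_const a
    simpa using this
  have h2 : HasDerivAt (fun t : ℝ => (1 : ℂ) + a * (z + t • (I * z))) (a * (I * z)) 0 := by
    have := ((((hasDerivAt_id (0 : ℝ)).smul_const (I * z)).const_add z).const_mul a).const_add
      (1 : ℂ)
    simpa using this
  have h3 := hasDerivAt_mob_aux _ _ _ _ h1 h2 (by simpa using hden)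
  convert! h3 using 1
  simp only [zero_smul, add_zero]
  ring

/-- derivative of the Mobius map in the parameter -/
lemma mob_line2 (z : ℂ) (a b : ℝ) (hden : (1 : ℂ) + a * z ≠ 0) :
    HasDerivAt (fun t : ℝ => (z + ((a + t * b : ℝ) : ℂ)) / (1 + ((a + t * b : ℝ) : ℂ) * z))
      (b * (1 - z ^ 2) / (1 + a * z) ^ 2) 0 := by
  have h0 : HasDerivAt (fun t : ℝ => ((a + t * b : ℝ) : ℂ)) (b : ℂ) 0 := by
    have := (((hasDerivAt_id (0 : ℝ)).mul_const b).const_add a).ofReal_comp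
    simpa using this
  have h1 : HasDerivAt (fun t : ℝ => z + ((a + t * b : ℝ) : ℂ)) (b : ℂ) 0 := h0.const_add z
  have h2 : HasDerivAt (fun t : ℝ => (1 : ℂ) + ((a + t * b : ℝ) : ℂ) * z) (b * z) 0 :=
    (h0.mul_const z).const_add 1
  have h3 := hasDerivAt_mob_aux _ _ _ _ h1 h2 (by simpa using hden)
  convert! h3 using 1
  simp only [zero_mul, add_zero]
  ring

lemma D_sh_1 (e : ℝ) (he : |e| < 1) (x : Circle × Circle) :
    fderiv ℝ (shT e) (icc x) (I * (x.1 : ℂ), 0) =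
      ((1 - ((e * (x.2 : ℂ).re : ℝ) : ℂ) ^ 2) / (1 + ((e * (x.2 : ℂ).re : ℝ) : ℂ) * (x.1 : ℂ)) ^ 2 *
        (I * (x.1 : ℂ)), 0) := by
  have hD := (shT_differentiableAt e he x).hasFDerivAt
  have hden : (1 : ℂ) + ((e * (x.2 : ℂ).re : ℝ) : ℂ) * (x.1 : ℂ) ≠ 0 :=
    mob_den_ne (mul_re_lt he x.2) x.1
  apply deriv_line hD
  have h3 := mob_line1 (x.1 : ℂ) ((e * (x.2 : ℂ).re : ℝ) : ℂ) hden
  have h4 : HasDerivAt (fun t : ℝ => (x.2 : ℂ)) 0 0 := hasDerivAt_const _ _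
  have h5 := h3.prodMk h4
  convert! h5 using 1
  funext t
  simp [shT, icc, ic]

lemma D_sh_2 (e : ℝ) (he : |e| < 1) (x : Circle × Circle) :
    fderiv ℝ (shT e) (icc x) (0, I * (x.2 : ℂ)) =
      (((-(e * (x.2 : ℂ).im) : ℝ) : ℂ) * (1 - (x.1 : ℂ) ^ 2) /
        (1 + ((e * (x.2 : ℂ).re : ℝ) : ℂ) * (x.1 : ℂ)) ^ 2, I * (x.2 : ℂ)) := by
  have hD := (shT_differentiableAt e he x).hasFDerivAt
  have hden : (1 : ℂ) + ((e * (x.2 : ℂ).re : ℝ) : ℂ) * (x.1 : ℂ) ≠ 0 :=
    mob_den_ne (mul_re_lt he x.2) x.1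
  apply deriv_line hD
  have h3 := mob_line2 (x.1 : ℂ) (e * (x.2 : ℂ).re) (-(e * (x.2 : ℂ).im)) hden
  have h4 : HasDerivAt (fun t : ℝ => (x.2 : ℂ) + t • (I * (x.2 : ℂ))) (I * (x.2 : ℂ)) 0 := by
    have := ((hasDerivAt_id (0 : ℝ)).smul_const (I * (x.2 : ℂ))).const_add (x.2 : ℂ)
    simpa using this
  have h5 := h3.prodMk h4
  convert! h5 using 1
  funext t
  have h6 : e * ((x.2 : ℂ) + t • (I * (x.2 : ℂ))).re =
      e * (x.2 : ℂ).re + t * (-(e * (x.2 : ℂ).im)) := by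
    simp
    ring
  simp only [shT, icc, ic, Prod.mk_add_mk, Prod.smul_mk, smul_zero, add_zero]
  rw [h6]

/-- extension of the stretch -/
def strT (k : ℝ) (q : ℂ × ℂ) : ℂ × ℂ := (q.1, stv k q.2 * ((‖stv k q.2‖⁻¹ : ℝ) : ℂ))

lemma strT_differentiableAt (k : ℝ) (hk : k ≠ 0) (x : Circle × Circle) :
    DifferentiableAt ℝ (strT k) (icc x) := by
  have h0 : ContDiff ℝ 1 (stv k) := by
    have : stv k = fun w : ℂ => ((w.re : ℝ) : ℂ) + ((k * w.im : ℝ) : ℂ) * Complex.I := by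
      funext w
      apply Complex.ext <;> simp [stv]
    rw [this]
    apply ContDiff.add
    · exact Complex.ofRealCLM.contDiff.comp Complex.reCLM.contDiff
    · apply ContDiff.mul _ contDiff_const
      exact Complex.ofRealCLM.contDiff.comp (contDiff_const.mul Complex.imCLM.contDiff)
  have h1 : ContDiffAt ℝ 1 (fun w : ℂ => stv k w * ((‖stv k w‖⁻¹ : ℝ) : ℂ)) (icc x).2 := by
    apply ContDiffAt.mul h0.contDiffAt
    apply Complex.ofRealCLM.contDiff.contDiffAt.comp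
    apply ContDiffAt.inv
    · exact (h0.contDiffAt).norm ℝ (stv_ne hk x.2)
    · exact norm_ne_zero_iff.mpr (stv_ne hk x.2)
  have h2 : DifferentiableAt ℝ (fun q : ℂ × ℂ => stv k q.2 * ((‖stv k q.2‖⁻¹ : ℝ) : ℂ)) (icc x) :=
    (h1.differentiableAt (by decide)).comp (icc x) differentiableAt_snd
  exact differentiableAt_fst.prodMk h2

lemma D_str_1 (k : ℝ) (hk : k ≠ 0) (x : Circle × Circle) :
    fderiv ℝ (strT k) (icc x) (I * (x.1 : ℂ), 0) = (I * (x.1 : ℂ), 0) := by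
  have hD := (strT_differentiableAt k hk x).hasFDerivAt
  apply deriv_line hD
  have h3 : HasDerivAt (fun t : ℝ => (x.1 : ℂ) + t • (I * (x.1 : ℂ))) (I * (x.1 : ℂ)) 0 := by
    have := ((hasDerivAt_id (0 : ℝ)).smul_const (I * (x.1 : ℂ))).const_add (x.1 : ℂ)
    simpa using this
  have h4 : HasDerivAt (fun t : ℝ => stv k x.2 * ((‖stv k x.2‖⁻¹ : ℝ) : ℂ)) 0 0 :=
    hasDerivAt_const _ _
  have h5 := h3.prodMk h4
  convert! h5 using 1
  funext t
  simp [strT, icc, ic]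

lemma stv_add_smul (k : ℝ) (w v : ℂ) (t : ℝ) : stv k (w + t • v) = stv k w + t • stv k v := by
  apply Complex.ext
  · simp [stv]
  · simp [stv]; ring

lemma D_str_2 (k : ℝ) (hk : k ≠ 0) (x : Circle × Circle)
    (horth : ∀ t : ℝ, ‖stv k x.2 + t • stv k (I * x.2)‖ ^ 2 =
      ‖stv k x.2‖ ^ 2 + t ^ 2 * ‖stv k (I * x.2)‖ ^ 2) :
    fderiv ℝ (strT k) (icc x) (0, I * (x.2 : ℂ)) =
      (0, stv k (I * x.2) * ((‖stv k x.2‖⁻¹ : ℝ) : ℂ)) := by
  have hD := (strT_differentiableAt k hk x).hasFDerivAt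
  have hpos := stv_norm_pos hk x.2
  apply deriv_line hD
  have h3 : HasDerivAt (fun t : ℝ => (x.1 : ℂ)) 0 0 := hasDerivAt_const _ _
  have h4 : HasDerivAt (fun t : ℝ => stv k x.2 + t • stv k (I * x.2)) (stv k (I * x.2)) 0 := by
    have := ((hasDerivAt_id (0 : ℝ)).smul_const (stv k (I * x.2))).const_add (stv k x.2)
    simpa using this
  have h5 : HasDerivAt (fun t : ℝ => ‖stv k x.2 + t • stv k (I * x.2)‖⁻¹) 0 0 := by
    have h6 : (fun t : ℝ => ‖stv k x.2 + t • stv k (I * x.2)‖⁻¹) =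
        fun t : ℝ => (Real.sqrt (‖stv k x.2‖ ^ 2 + t ^ 2 * ‖stv k (I * x.2)‖ ^ 2))⁻¹ := by
      funext t
      rw [← horth t, Real.sqrt_sq (norm_nonneg _)]
    rw [h6]
    have h7 : HasDerivAt (fun t : ℝ => ‖stv k x.2‖ ^ 2 + t ^ 2 * ‖stv k (I * x.2)‖ ^ 2) 0 0 := by
      have := (((hasDerivAt_pow 2 (0 : ℝ)).mul_const (‖stv k (I * x.2)‖ ^ 2)).const_add
        (‖stv k x.2‖ ^ 2))
      simpa using this
    have h8 := h7.sqrt (by simp; exact stv_ne hk x.2)
    have h9 := h8.fun_inv (by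
      simp only [ne_eq, OfNat.ofNat_ne_zero, not_false_eq_true, zero_pow, zero_mul, add_zero]
      rw [Real.sqrt_sq (norm_nonneg _)]
      exact hpos.ne')
    simpa using h9
  have h6 := h4.mul h5.ofReal_comp
  have h7 := h3.prodMk h6
  convert! h7 using 1
  · funext t
    simp only [strT, icc, ic, Prod.mk_add_mk, Prod.smul_mk, smul_zero, add_zero]
    rw [stv_add_smul]
    rfl
  · simp

/-! The derivatives of the factors in the tangent basis. -/

/-- derivative of a self-map read in the model space -/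
def DA (G : Circle × Circle → Circle × Circle) (x : Circle × Circle) : E2 →L[ℝ] E2 :=
  mfderiv IT IT G x

lemma hasDA (G : Diffeomorph IT IT (Circle × Circle) (Circle × Circle) ω) (x : Circle × Circle) :
    HasMFDerivAt IT IT G x (castD IT x (G x) (DA G x)) :=
  (G.contMDiff.mdifferentiableAt (by decide)).hasMFDerivAt

lemma re_ofReal_of_im_zero {z : ℂ} (h : z.im = 0) : z = (z.re : ℂ) := by
  apply Complex.ext <;> simp [h]

lemma eq_I_of_re_zero {z : ℂ} (h : z.re = 0) : z = (z.im : ℂ) * I := by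
  apply Complex.ext <;> simp [h]

/-- real multiplier along the circle at a corner -/
lemma corner_mult (s c : ℝ) (hs : s ^ 2 = 1) (h : 1 + c * s ≠ 0) :
    (1 - (c : ℂ) ^ 2) / (1 + (c : ℂ) * (s : ℂ)) ^ 2 = (((1 - c * s) / (1 + c * s) : ℝ) : ℂ) := by
  have h1 : (1 : ℂ) + (c : ℂ) * (s : ℂ) ≠ 0 := by exact_mod_cast h
  have h2 : (s : ℂ) ^ 2 = 1 := by exact_mod_cast hs
  push_cast
  rw [div_eq_div_iff (pow_ne_zero 2 h1) h1]
  linear_combination ((c : ℂ) ^ 2 * (1 + (c : ℂ) * (s : ℂ))) * h2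

section sh

variable (e : ℝ) (he : |e| < 1) (x : Circle × Circle)

include he in
lemma sh_corner (hx : (x.1 : ℂ).im = 0 ∧ (x.2 : ℂ).im = 0)
    (G : Diffeomorph IT IT (Circle × Circle) (Circle × Circle) ω) (hGx : G x = x)
    (hcomm : ∀ y, icc (G y) = shT e (icc y)) :
    DA G x (bv x 0) = ((1 - e * (x.2 : ℂ).re * (x.1 : ℂ).re) /
      (1 + e * (x.2 : ℂ).re * (x.1 : ℂ).re)) • bv x 0 ∧ DA G x (bv x 1) = bv x 1 := by
  have hD := (shT_differentiableAt e he x).hasFDerivAt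
  have hch := chain_fixed G hGx (DA G x) (hasDA G x) (shT e) _ hD hcomm
  have hz := re_ofReal_of_im_zero hx.1
  have hz2 := circle_sq x.1
  rw [hx.1] at hz2
  have hzz : (x.1 : ℂ).re ^ 2 = 1 := by linarith
  have hden := mob_den_ne (mul_re_lt he x.2) x.1
  have hden2 : 1 + e * (x.2 : ℂ).re * (x.1 : ℂ).re ≠ 0 := by
    rw [hz] at hden
    exact_mod_cast hden
  constructor
  · apply BB_injective x
    rw [hch, BB_bv0, D_sh_1 e he x, map_smul, BB_bv0]
    have h1 := corner_mult (x.1 : ℂ).re (e * (x.2 : ℂ).re) hzz hden2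
    rw [← hz] at h1
    rw [h1]
    apply Prod.ext
    · simp
    · simp
  · apply BB_injective x
    rw [hch, BB_bv1, D_sh_2 e he x]
    have h1 : (1 : ℂ) - (x.1 : ℂ) ^ 2 = 0 := by
      rw [hz, ← Complex.ofReal_pow, hzz]
      simp
    rw [h1]
    simp

include he in
lemma sh_center (hx : (x.1 : ℂ).re = 0 ∧ (x.2 : ℂ).re = 0)
    (G : Diffeomorph IT IT (Circle × Circle) (Circle × Circle) ω) (hGx : G x = x)
    (hcomm : ∀ y, icc (G y) = shT e (icc y)) :
    DA G x (bv x 0) = bv x 0 ∧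
    DA G x (bv x 1) = (2 * e * ((x.1 : ℂ).im * (x.2 : ℂ).im)) • bv x 0 + bv x 1 := by
  have hD := (shT_differentiableAt e he x).hasFDerivAt
  have hch := chain_fixed G hGx (DA G x) (hasDA G x) (shT e) _ hD hcomm
  have hz := eq_I_of_re_zero hx.1
  have hz2 := circle_sq x.1
  rw [hx.1] at hz2
  have hzz : (x.1 : ℂ).im ^ 2 = 1 := by linarith
  have hzz' : ((x.1 : ℂ).im : ℂ) ^ 2 = 1 := by exact_mod_cast hzz
  constructor
  · apply BB_injective x
    rw [hch, BB_bv0, D_sh_1 e he x, hx.2]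
    simp
  · apply BB_injective x
    rw [hch, BB_bv1, D_sh_2 e he x, map_add, map_smul, BB_bv0, BB_bv1, hx.2]
    apply Prod.ext
    · simp only [mul_zero, ofReal_zero, zero_mul, add_zero, one_pow, div_one, Prod.smul_mk,
        Prod.mk_add_mk, smul_zero, zero_add, Complex.real_smul]
      rw [hz]
      push_cast
      simp only [Complex.mul_im, Complex.ofReal_re, Complex.I_im, Complex.ofReal_im, Complex.I_re,
        mul_one, mul_zero, add_zero, zero_mul]
      have hI : I ^ 2 = -1 := I_sq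
      linear_combination ((e : ℂ) * (x.2 : ℂ).im * ((x.1 : ℂ).im : ℂ) ^ 2 -
        2 * (e : ℂ) * (x.2 : ℂ).im * ((x.1 : ℂ).im : ℂ) ^ 2) * hI +
        (-(e : ℂ) * (x.2 : ℂ).im * 1 + 2 * (e : ℂ) * (x.2 : ℂ).im) * hzz'
    · simp

end sh

/-! swapped shear -/

/-- extension of the swapped shear -/
def shT2 (e : ℝ) (q : ℂ × ℂ) : ℂ × ℂ := (shT e q.swap).swap

lemma shT2_hasFDerivAt (e : ℝ) (he : |e| < 1) (x : Circle × Circle) :
    HasFDerivAt (shT2 e) (((ContinuousLinearMap.snd ℝ ℂ ℂ).prod (ContinuousLinearMap.fst ℝ ℂ ℂ)).comp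
      ((fderiv ℝ (shT e) (icc x.swap)).comp
        ((ContinuousLinearMap.snd ℝ ℂ ℂ).prod (ContinuousLinearMap.fst ℝ ℂ ℂ)))) (icc x) := by
  have h1 : HasFDerivAt (fun q : ℂ × ℂ => q.swap)
      ((ContinuousLinearMap.snd ℝ ℂ ℂ).prod (ContinuousLinearMap.fst ℝ ℂ ℂ)) (icc x) :=
    hasFDerivAt_snd.prodMk hasFDerivAt_fst
  have h2 := (shT_differentiableAt e he x.swap).hasFDerivAt
  have h3 : HasFDerivAt (fun q : ℂ × ℂ => q.swap)
      ((ContinuousLinearMap.snd ℝ ℂ ℂ).prod (ContinuousLinearMap.fst ℝ ℂ ℂ))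
      (shT e (icc x.swap)) :=
    hasFDerivAt_snd.prodMk hasFDerivAt_fst
  have h4 : (icc x).swap = icc x.swap := rfl
  rw [← h4] at h2 h3
  exact h3.comp (icc x) (h2.comp (icc x) h1)

section sh2

variable (e : ℝ) (he : |e| < 1) (x : Circle × Circle)

include he in
lemma sh2_corner (hx : (x.1 : ℂ).im = 0 ∧ (x.2 : ℂ).im = 0)
    (G : Diffeomorph IT IT (Circle × Circle) (Circle × Circle) ω) (hGx : G x = x)
    (hcomm : ∀ y, icc (G y) = shT2 e (icc y)) :
    DA G x (bv x 1) = ((1 - e * (x.1 : ℂ).re * (x.2 : ℂ).re) /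
      (1 + e * (x.1 : ℂ).re * (x.2 : ℂ).re)) • bv x 1 ∧ DA G x (bv x 0) = bv x 0 := by
  have hch := chain_fixed G hGx (DA G x) (hasDA G x) (shT2 e) _ (shT2_hasFDerivAt e he x) hcomm
  have hz := re_ofReal_of_im_zero hx.2
  have hz2 := circle_sq x.2
  rw [hx.2] at hz2
  have hzz : (x.2 : ℂ).re ^ 2 = 1 := by linarith
  have hden := mob_den_ne (mul_re_lt he x.1) x.2
  have hden2 : 1 + e * (x.1 : ℂ).re * (x.2 : ℂ).re ≠ 0 := by
    rw [hz] at hden
    exact_mod_cast hden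
  have d1 := D_sh_1 e he x.swap
  have d2 := D_sh_2 e he x.swap
  simp only [Prod.fst_swap, Prod.snd_swap] at d1 d2
  constructor
  · apply BB_injective x
    rw [hch, BB_bv1, map_smul, BB_bv1]
    simp only [ContinuousLinearMap.comp_apply, ContinuousLinearMap.prod_apply,
      ContinuousLinearMap.coe_snd', ContinuousLinearMap.coe_fst']
    rw [d1]
    have h1 := corner_mult (x.2 : ℂ).re (e * (x.1 : ℂ).re) hzz hden2
    rw [← hz] at h1
    rw [h1]
    apply Prod.ext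
    · simp
    · simp
  · apply BB_injective x
    rw [hch, BB_bv0]
    simp only [ContinuousLinearMap.comp_apply, ContinuousLinearMap.prod_apply,
      ContinuousLinearMap.coe_snd', ContinuousLinearMap.coe_fst']
    rw [d2]
    have h1 : (1 : ℂ) - (x.2 : ℂ) ^ 2 = 0 := by
      rw [hz, ← Complex.ofReal_pow, hzz]
      simp
    rw [h1]
    simp

include he in
lemma sh2_center (hx : (x.1 : ℂ).re = 0 ∧ (x.2 : ℂ).re = 0)
    (G : Diffeomorph IT IT (Circle × Circle) (Circle × Circle) ω) (hGx : G x = x)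
    (hcomm : ∀ y, icc (G y) = shT2 e (icc y)) :
    DA G x (bv x 1) = bv x 1 ∧
    DA G x (bv x 0) = bv x 0 + (2 * e * ((x.1 : ℂ).im * (x.2 : ℂ).im)) • bv x 1 := by
  have hch := chain_fixed G hGx (DA G x) (hasDA G x) (shT2 e) _ (shT2_hasFDerivAt e he x) hcomm
  have hz := eq_I_of_re_zero hx.2
  have hz2 := circle_sq x.2
  rw [hx.2] at hz2
  have hzz : (x.2 : ℂ).im ^ 2 = 1 := by linarith
  have hzz' : ((x.2 : ℂ).im : ℂ) ^ 2 = 1 := by exact_mod_cast hzz
  have d1 := D_sh_1 e he x.swap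
  have d2 := D_sh_2 e he x.swap
  simp only [Prod.fst_swap, Prod.snd_swap] at d1 d2
  constructor
  · apply BB_injective x
    rw [hch, BB_bv1]
    simp only [ContinuousLinearMap.comp_apply, ContinuousLinearMap.prod_apply,
      ContinuousLinearMap.coe_snd', ContinuousLinearMap.coe_fst']
    rw [d1, hx.1]
    simp
  · apply BB_injective x
    rw [hch, BB_bv0, map_add, map_smul, BB_bv0, BB_bv1]
    simp only [ContinuousLinearMap.comp_apply, ContinuousLinearMap.prod_apply,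
      ContinuousLinearMap.coe_snd', ContinuousLinearMap.coe_fst']
    rw [d2, hx.1]
    apply Prod.ext
    · simp
    · simp only [mul_zero, ofReal_zero, zero_mul, add_zero, one_pow, div_one, Prod.smul_mk,
        Prod.mk_add_mk, smul_zero, zero_add, Complex.real_smul]
      rw [hz]
      push_cast
      simp only [Complex.mul_im, Complex.ofReal_re, Complex.I_im, Complex.ofReal_im, Complex.I_re,
        mul_one, mul_zero, add_zero]
      have hI : I ^ 2 = -1 := I_sq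
      linear_combination ((e : ℂ) * (x.1 : ℂ).im * ((x.2 : ℂ).im : ℂ) ^ 2 -
        2 * (e : ℂ) * (x.1 : ℂ).im * ((x.2 : ℂ).im : ℂ) ^ 2) * hI +
        (-(e : ℂ) * (x.1 : ℂ).im * 1 + 2 * (e : ℂ) * (x.1 : ℂ).im) * hzz'

end sh2

/-! stretch -/

lemma str_corner (x : Circle × Circle) (hx : (x.1 : ℂ).im = 0 ∧ (x.2 : ℂ).im = 0) :
    DA DD x (bv x 0) = bv x 0 ∧ DA DD x (bv x 1) = kap • bv x 1 := by
  have hD := (strT_differentiableAt kap kap_ne x).hasFDerivAt
  have hch := chain_fixed DD (DD_special x (Or.inl hx)) (DA DD x) (hasDA DD x) (strT kap) _ hD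
    (fun y => rfl)
  have hz2 := circle_sq x.2
  rw [hx.2] at hz2
  have hzz : (x.2 : ℂ).re ^ 2 = 1 := by linarith
  have hn : ‖stv kap x.2‖ ^ 2 = 1 := by
    rw [stv_norm_sq, hx.2]; linarith
  have hn1 : ‖stv kap x.2‖ = 1 := by
    have := norm_nonneg (stv kap x.2)
    nlinarith
  have horth : ∀ t : ℝ, ‖stv kap x.2 + t • stv kap (I * x.2)‖ ^ 2 =
      ‖stv kap x.2‖ ^ 2 + t ^ 2 * ‖stv kap (I * x.2)‖ ^ 2 := by
    intro t
    rw [← stv_add_smul, stv_norm_sq, stv_norm_sq, stv_norm_sq]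
    simp [hx.2]
    ring
  constructor
  · apply BB_injective x
    rw [hch, BB_bv0, D_str_1 kap kap_ne x]
  · apply BB_injective x
    rw [hch, BB_bv1, D_str_2 kap kap_ne x horth, map_smul, BB_bv1, hn1]
    apply Prod.ext
    · simp
    · apply Complex.ext
      · simp [stv, hx.2]
      · simp [stv, hx.2]

lemma str_center (x : Circle × Circle) (hx : (x.1 : ℂ).re = 0 ∧ (x.2 : ℂ).re = 0) :
    DA DD x (bv x 0) = bv x 0 ∧ DA DD x (bv x 1) = kap⁻¹ • bv x 1 := by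
  have hD := (strT_differentiableAt kap kap_ne x).hasFDerivAt
  have hch := chain_fixed DD (DD_special x (Or.inr hx)) (DA DD x) (hasDA DD x) (strT kap) _ hD
    (fun y => rfl)
  have hz2 := circle_sq x.2
  rw [hx.2] at hz2
  have hzz : (x.2 : ℂ).im ^ 2 = 1 := by linarith
  have hn : ‖stv kap x.2‖ ^ 2 = kap ^ 2 := by
    rw [stv_norm_sq, hx.2, hzz]; ring
  have hn1 : ‖stv kap x.2‖ = kap := by
    have h4 := norm_nonneg (stv kap x.2)
    have h5 : 0 ≤ kap := by norm_num [kap]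
    exact (sq_eq_sq₀ h4 h5).mp hn
  have horth : ∀ t : ℝ, ‖stv kap x.2 + t • stv kap (I * x.2)‖ ^ 2 =
      ‖stv kap x.2‖ ^ 2 + t ^ 2 * ‖stv kap (I * x.2)‖ ^ 2 := by
    intro t
    rw [← stv_add_smul, stv_norm_sq, stv_norm_sq, stv_norm_sq]
    simp [hx.2]
    ring
  constructor
  · apply BB_injective x
    rw [hch, BB_bv0, D_str_1 kap kap_ne x]
  · apply BB_injective x
    rw [hch, BB_bv1, D_str_2 kap kap_ne x horth, map_smul, BB_bv1, hn1]
    apply Prod.ext
    · simp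
    · apply Complex.ext
      · simp [stv, hx.2]
        ring
      · simp [stv, hx.2]

/-! derivative of the whole map -/

lemma DA_FF (x : Circle × Circle) (hx : Special x) (u : E2) :
    DA FF x u = DA S2 x (DA S1 x (DA DD x u)) := by
  have h1 := hasDA DD x
  have h2 := hasDA S1 (DD x)
  have h3 := hasDA S2 (S1 (DD x))
  have h4 := h3.comp x (h2.comp x h1)
  have h5 := hasDA FF x
  have h6 := hasMFDerivAt_unique h5 h4
  have h7 : DA FF x u = DA S2 (S1 (DD x)) (DA S1 (DD x) (DA DD x u)) :=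
    congrArg (fun (L : E2 →L[ℝ] E2) => L u) h6
  rw [h7, DD_special x hx, S1_special x hx]

end

end Pool.Agent.Work.MP_794bd6_an
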