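import Pool.Agent.Work.MP_794bd6_an.Torus

set_option autoImplicit false
open Complex Set Filter Topology Manifold
open scoped ContDiff

namespace Pool.Agent.Work.MP_794bd6_an

noncomputable section

attribute [local instance] finrank_real_complex_fact'

lemma mob_den_pos {a : ℝ} (ha : |a| < 1) (z : Circle) : 0 < 1 + 2 * a * (z : ℂ).re + a ^ 2 := by
  have h1 := abs_re_le z
  have h2 : |a * (z : ℂ).re| ≤ |a| := by
    rw [abs_mul]
    nlinarith [abs_nonneg a]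
  have h3 := neg_abs_le (a * (z : ℂ).re)
  have h4 : 0 < (1 - |a|) ^ 2 := by
    have : 0 < 1 - |a| := by linarith
    positivity
  have h5 : |a| ^ 2 = a ^ 2 := sq_abs a
  nlinarith

lemma mob_normSq {a : ℝ} (z : Circle) :
    normSq ((1 : ℂ) + a * z) = 1 + 2 * a * (z : ℂ).re + a ^ 2 := by
  rw [normSq_apply]
  have := circle_sq z
  simp only [add_re, one_re, re_ofReal_mul, add_im, one_im, im_ofReal_mul, zero_add]
  linear_combination (a ^ 2) * this

lemma mob_re {a : ℝ} (ha : |a| < 1) (z : Circle) :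
    (mob a ha z : ℂ).re = ((1 + a ^ 2) * (z : ℂ).re + 2 * a) / (1 + 2 * a * (z : ℂ).re + a ^ 2) := by
  have hD := mob_den_pos ha z
  have hsq := circle_sq z
  rw [coe_mob, Complex.div_re, mob_normSq]
  simp only [add_re, one_re, re_ofReal_mul, add_im, one_im, im_ofReal_mul, zero_add, ofReal_re,
    ofReal_im, add_zero]
  rw [← add_div]
  congr 1
  linear_combination a * hsq

lemma mob_im {a : ℝ} (ha : |a| < 1) (z : Circle) :
    (mob a ha z : ℂ).im = ((1 - a ^ 2) * (z : ℂ).im) / (1 + 2 * a * (z : ℂ).re + a ^ 2) := by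
  have hD := mob_den_pos ha z
  have hsq := circle_sq z
  rw [coe_mob, Complex.div_im, mob_normSq]
  simp only [add_re, one_re, re_ofReal_mul, add_im, one_im, im_ofReal_mul, zero_add, ofReal_re,
    ofReal_im, add_zero]
  rw [← sub_div]
  congr 1
  ring

lemma stv_norm_sq (k : ℝ) (w : ℂ) : ‖stv k w‖ ^ 2 = w.re ^ 2 + k ^ 2 * w.im ^ 2 := by
  rw [← Complex.normSq_eq_norm_sq, normSq_apply, stv]
  ring

lemma stv_norm_pos {k : ℝ} (hk : k ≠ 0) (w : Circle) : 0 < ‖stv k w‖ := norm_pos_iff.mpr (stv_ne hk w)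

lemma str_re {k : ℝ} (hk : k ≠ 0) (w : Circle) :
    (str k hk w : ℂ).re = (w : ℂ).re / ‖stv k w‖ := by
  rw [coe_str, re_mul_ofReal]
  rfl

lemma str_im {k : ℝ} (hk : k ≠ 0) (w : Circle) :
    (str k hk w : ℂ).im = k * (w : ℂ).im / ‖stv k w‖ := by
  rw [coe_str, im_mul_ofReal]
  rfl

/-! The map. -/

def kap : ℝ := 9 / 10
def del : ℝ := 1 / 10

lemma kap_ne : kap ≠ 0 := by norm_num [kap]
lemma del_lt : |del| < 1 := by norm_num [del]
lemma ndel_lt : |(-del)| < 1 := by norm_num [del]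

/-- first factor: stretch in the second circle -/
def DD : Diffeomorph IT IT (Circle × Circle) (Circle × Circle) ω :=
  (Diffeomorph.refl (𝓡 1) Circle ω).prodCongr (strD kap kap_ne)

/-- second factor: shear in the first circle -/
def S1 : Diffeomorph IT IT (Circle × Circle) (Circle × Circle) ω := shD del del_lt

/-- third factor: shear in the second circle -/
def S2 : Diffeomorph IT IT (Circle × Circle) (Circle × Circle) ω :=
  ((Diffeomorph.prodComm (𝓡 1) (𝓡 1) Circle Circle ω).trans (shD (-del) ndel_lt)).trans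
    (Diffeomorph.prodComm (𝓡 1) (𝓡 1) Circle Circle ω)

/-- the diffeomorphism -/
def FF : Diffeomorph IT IT (Circle × Circle) (Circle × Circle) ω := (DD.trans S1).trans S2

lemma DD_apply (x : Circle × Circle) : DD x = (x.1, str kap kap_ne x.2) := rfl

lemma S1_apply (x : Circle × Circle) :
    S1 x = (mob (del * (x.2 : ℂ).re) (mul_re_lt del_lt x.2) x.1, x.2) := rfl

lemma S2_apply (x : Circle × Circle) :
    S2 x = (x.1, mob (-del * (x.1 : ℂ).re) (mul_re_lt ndel_lt x.1) x.2) := rfl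

lemma FF_apply (x : Circle × Circle) : FF x = S2 (S1 (DD x)) := rfl

/-- the Lyapunov function -/
def VV (x : Circle × Circle) : ℝ := ((x.1 : ℂ).im) ^ 2 * ((x.2 : ℂ).im) ^ 2

lemma im_sq_aux (x y R : ℝ) (h : x ^ 2 + y ^ 2 = 1) (hR : R = x ^ 2 + (9 / 10) ^ 2 * y ^ 2)
    (hR0 : 0 < R) :
    (9 / 10 * y) ^ 2 / R = (1 - 19 / 100 * (x ^ 2 / R)) * y ^ 2 := by
  rw [div_eq_iff hR0.ne']
  have h1 : x ^ 2 / R * R = x ^ 2 := div_mul_cancel₀ _ hR0.ne'
  have h2 : (1 - 19 / 100 * (x ^ 2 / R)) * y ^ 2 * R = (R - 19 / 100 * (x ^ 2 / R * R)) * y ^ 2 := by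
    ring
  rw [h2, h1, hR]
  linear_combination (-(81 / 100) * y ^ 2) * h

lemma im_sq_str (w : Circle) :
    ((str kap kap_ne w : ℂ).im) ^ 2 =
      (1 - 19 / 100 * ((str kap kap_ne w : ℂ).re) ^ 2) * ((w : ℂ).im) ^ 2 := by
  rw [str_re, str_im]
  have h := stv_norm_pos kap_ne w
  have h1 := stv_norm_sq kap w
  have h2 := circle_sq w
  rw [div_pow, div_pow]
  exact im_sq_aux _ _ _ h2 h1 (by positivity)

lemma alg_uv (u v P Q : ℝ) (hv : 79 / 100 ≤ v) (hu : 79 / 100 ≤ u) (hQ0 : 0 ≤ Q) (hQ1 : Q ≤ 1)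
    (hP0 : 0 ≤ P) (k : ℝ) (hk : 0 < k) (hk1 : k ≤ 11 / 10)
    (huv : u - v = 2 / 100 * (Q - P) * k) :
    u ^ 2 * (1 - 19 / 100 * Q) ≤ v ^ 2 ∧ (u ^ 2 * (1 - 19 / 100 * Q) = v ^ 2 → P = 0 ∧ Q = 0) := by
  have hu2 : 0 < u ^ 2 := by positivity
  rcases le_or_gt Q P with hc | hc
  · have h1 : u ≤ v := by
      have : 2 / 100 * (Q - P) * k ≤ 0 := by
        apply mul_nonpos_of_nonpos_of_nonneg _ hk.le
        linarith
      linarith
    have h2 : u ^ 2 ≤ v ^ 2 := pow_le_pow_left₀ (by linarith) h1 2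
    have h3 : u ^ 2 * (1 - 19 / 100 * Q) ≤ u ^ 2 := by
      have : 0 ≤ u ^ 2 * (19 / 100 * Q) := by positivity
      linarith
    refine ⟨h3.trans h2, fun h => ?_⟩
    have hQ : u ^ 2 * (19 / 100 * Q) = 0 := by linarith
    have hQ' : Q = 0 := by
      rcases mul_eq_zero.mp hQ with h | h
      · exact absurd h hu2.ne'
      · linarith
    subst hQ'
    have h4 : u ^ 2 = v ^ 2 := by linarith
    have h5 : u = v := by
      rcases sq_eq_sq_iff_eq_or_eq_neg.mp h4 with h | h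
      · exact h
      · linarith
    have h6 : P * k = 0 := by rw [h5] at huv; linarith
    rcases mul_eq_zero.mp h6 with h | h
    · exact ⟨h, rfl⟩
    · exact absurd h hk.ne'
  · have hQpos : 0 < Q := by linarith
    have h1 : u ≤ v + 22 / 1000 * Q := by
      have h5 : 0 ≤ Q - P := by linarith
      have h6 : 2 / 100 * (Q - P) * k ≤ 2 / 100 * (Q - P) * (11 / 10) := by
        apply mul_le_mul_of_nonneg_left hk1
        positivity
      linarith
    have h3 : u ^ 2 ≤ (v + 22 / 1000 * Q) ^ 2 := pow_le_pow_left₀ (by linarith) h1 2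
    have h4 : 0 < 1 - 19 / 100 * Q := by linarith
    have h6 : (v + 22 / 1000 * Q) ^ 2 * (1 - 19 / 100 * Q) - v ^ 2 =
          Q * (44 / 1000 * v + (22 / 1000) ^ 2 * Q -
            19 / 100 * (v + 22 / 1000 * Q) ^ 2) := by ring
    have h8 : v ^ 2 ≤ (v + 22 / 1000 * Q) ^ 2 := pow_le_pow_left₀ (by linarith) (by linarith) 2
    have h9 : 79 / 100 * v ≤ v ^ 2 := by
      rw [sq]
      exact mul_le_mul_of_nonneg_right hv (by linarith)
    have h7 : 44 / 1000 * v + (22 / 1000) ^ 2 * Q -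
            19 / 100 * (v + 22 / 1000 * Q) ^ 2 < 0 := by
      linarith
    have h10 : Q * (44 / 1000 * v + (22 / 1000) ^ 2 * Q -
            19 / 100 * (v + 22 / 1000 * Q) ^ 2) < 0 := mul_neg_of_pos_of_neg hQpos h7
    have h2 : u ^ 2 * (1 - 19 / 100 * Q) < v ^ 2 := by
      calc u ^ 2 * (1 - 19 / 100 * Q) ≤ (v + 22 / 1000 * Q) ^ 2 * (1 - 19 / 100 * Q) :=
            mul_le_mul_of_nonneg_right h3 h4.le
        _ < v ^ 2 := by linarith
    exact ⟨h2.le, fun h => absurd h h2.ne⟩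

/-- algebra of the Lyapunov function -/
lemma alg_le {p q : ℝ} (hp : |p| ≤ 1) (hq : |q| ≤ 1) :
    ((1 - 2 * (1 / 10) * q * p + (1 / 10) ^ 2 * q ^ 2) * (1 - (1 / 10) ^ 2 * p ^ 2)) ^ 2 *
      (1 - 19 / 100 * q ^ 2) ≤
    ((1 - (1 / 10) ^ 2 * q ^ 2) * (1 - 2 * (1 / 10) * p * q + (1 / 10) ^ 2 * p ^ 2)) ^ 2 ∧
    (((1 - 2 * (1 / 10) * q * p + (1 / 10) ^ 2 * q ^ 2) * (1 - (1 / 10) ^ 2 * p ^ 2)) ^ 2 *
      (1 - 19 / 100 * q ^ 2) =
    ((1 - (1 / 10) ^ 2 * q ^ 2) * (1 - 2 * (1 / 10) * p * q + (1 / 10) ^ 2 * p ^ 2)) ^ 2 →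
      p = 0 ∧ q = 0) := by
  have hp2 : p ^ 2 ≤ 1 := (sq_le_one_iff_abs_le_one p).mpr hp
  have hq2 : q ^ 2 ≤ 1 := (sq_le_one_iff_abs_le_one q).mpr hq
  have hp0 := sq_nonneg p
  have hq0 := sq_nonneg q
  have hpq1 : p * q ≤ 1 := by linarith [sq_nonneg (p - q), sub_sq p q]
  have hpq2 : -1 ≤ p * q := by linarith [sq_nonneg (p + q), add_sq p q]
  have e1 : (99 / 100 : ℝ) ≤ 1 - (1 / 10) ^ 2 * q ^ 2 := by linarith
  have e2 : (8 / 10 : ℝ) ≤ 1 - 2 * (1 / 10) * p * q + (1 / 10) ^ 2 * p ^ 2 := by linarith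
  have e3 : (99 / 100 : ℝ) ≤ 1 - (1 / 10) ^ 2 * p ^ 2 := by linarith
  have e4 : (8 / 10 : ℝ) ≤ 1 - 2 * (1 / 10) * q * p + (1 / 10) ^ 2 * q ^ 2 := by linarith
  have e5 : (99 / 100 : ℝ) * (8 / 10) ≤
    (1 - (1 / 10) ^ 2 * q ^ 2) * (1 - 2 * (1 / 10) * p * q + (1 / 10) ^ 2 * p ^ 2) :=
    mul_le_mul e1 e2 (by norm_num) (by linarith)
  have e6 : (8 / 10 : ℝ) * (99 / 100) ≤
    (1 - 2 * (1 / 10) * q * p + (1 / 10) ^ 2 * q ^ 2) * (1 - (1 / 10) ^ 2 * p ^ 2) :=
    mul_le_mul e4 e3 (by norm_num) (by linarith)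
  have key := alg_uv
    ((1 - 2 * (1 / 10) * q * p + (1 / 10) ^ 2 * q ^ 2) * (1 - (1 / 10) ^ 2 * p ^ 2))
    ((1 - (1 / 10) ^ 2 * q ^ 2) * (1 - 2 * (1 / 10) * p * q + (1 / 10) ^ 2 * p ^ 2))
    (p ^ 2) (q ^ 2) (by linarith) (by linarith) hq0 hq2 hp0 (1 - 1 / 10 * (p * q))
    (by linarith) (by linarith) (by ring)
  refine ⟨key.1, fun h => ?_⟩
  have := key.2 h
  exact ⟨by simpa using this.1, by simpa using this.2⟩

lemma mob_im' {a : ℝ} (ha : |a| < 1) (z : Circle) :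
    (mob a ha z : ℂ).im * (1 + 2 * a * (z : ℂ).re + a ^ 2) = (1 - a ^ 2) * (z : ℂ).im := by
  rw [mob_im, div_mul_cancel₀ _ (mob_den_pos ha z).ne']

lemma mob_im'' {a : ℝ} (ha : |a| < 1) (z : Circle) :
    (mob a ha z : ℂ).im * (1 - a ^ 2) = (1 - 2 * a * (mob a ha z : ℂ).re + a ^ 2) * (z : ℂ).im := by
  have hD := mob_den_pos ha z
  rw [mob_im, mob_re]
  have h1 : 1 - 2 * a * (((1 + a ^ 2) * (z : ℂ).re + 2 * a) / (1 + 2 * a * (z : ℂ).re + a ^ 2)) +
      a ^ 2 = (1 - a ^ 2) ^ 2 / (1 + 2 * a * (z : ℂ).re + a ^ 2) := by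
    rw [eq_div_iff hD.ne']
    have h2 : ((1 + a ^ 2) * (z : ℂ).re + 2 * a) / (1 + 2 * a * (z : ℂ).re + a ^ 2) *
      (1 + 2 * a * (z : ℂ).re + a ^ 2) = (1 + a ^ 2) * (z : ℂ).re + 2 * a :=
      div_mul_cancel₀ _ hD.ne'
    linear_combination (-2 * a) * h2
  rw [h1]
  ring

/-- the intermediate points of the map -/
def w1 (x : Circle × Circle) : Circle := str kap kap_ne x.2
def z1 (x : Circle × Circle) : Circle :=
  mob (del * (w1 x : ℂ).re) (mul_re_lt del_lt (w1 x)) x.1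
def w2 (x : Circle × Circle) : Circle :=
  mob (-del * (z1 x : ℂ).re) (mul_re_lt ndel_lt (z1 x)) (w1 x)

lemma FF_apply' (x : Circle × Circle) : FF x = (z1 x, w2 x) := rfl

lemma VV_FF (x : Circle × Circle) :
    VV (FF x) * ((1 - (1 / 10) ^ 2 * (w1 x : ℂ).re ^ 2) *
      (1 - 2 * (1 / 10) * (z1 x : ℂ).re * (w1 x : ℂ).re + (1 / 10) ^ 2 * (z1 x : ℂ).re ^ 2)) ^ 2 =
    ((1 - 2 * (1 / 10) * (w1 x : ℂ).re * (z1 x : ℂ).re + (1 / 10) ^ 2 * (w1 x : ℂ).re ^ 2) *
      (1 - (1 / 10) ^ 2 * (z1 x : ℂ).re ^ 2)) ^ 2 * (1 - 19 / 100 * (w1 x : ℂ).re ^ 2) * VV x := by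
  have h1 := mob_im'' (mul_re_lt del_lt (w1 x)) x.1
  have h2 := mob_im' (mul_re_lt ndel_lt (z1 x)) (w1 x)
  have h3 : ((w1 x : ℂ).im) ^ 2 = (1 - 19 / 100 * (w1 x : ℂ).re ^ 2) * ((x.2 : ℂ).im) ^ 2 :=
    im_sq_str x.2
  change (z1 x : ℂ).im * (1 - (del * (w1 x : ℂ).re) ^ 2) =
    (1 - 2 * (del * (w1 x : ℂ).re) * (z1 x : ℂ).re + (del * (w1 x : ℂ).re) ^ 2) *
      (x.1 : ℂ).im at h1
  change (w2 x : ℂ).im * (1 + 2 * (-del * (z1 x : ℂ).re) * (w1 x : ℂ).re +
    (-del * (z1 x : ℂ).re) ^ 2) = (1 - (-del * (z1 x : ℂ).re) ^ 2) * (w1 x : ℂ).im at h2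
  have hV : VV (FF x) = ((z1 x : ℂ).im) ^ 2 * ((w2 x : ℂ).im) ^ 2 := rfl
  rw [hV, VV]
  simp only [del] at h1 h2
  set q := (w1 x : ℂ).re
  set p := (z1 x : ℂ).re
  calc ((z1 x : ℂ).im) ^ 2 * ((w2 x : ℂ).im) ^ 2 * ((1 - (1 / 10) ^ 2 * q ^ 2) *
      (1 - 2 * (1 / 10) * p * q + (1 / 10) ^ 2 * p ^ 2)) ^ 2
      = ((z1 x : ℂ).im * (1 - (1 / 10 * q) ^ 2)) ^ 2 *
        ((w2 x : ℂ).im * (1 + 2 * (-(1 / 10) * p) * q + (-(1 / 10) * p) ^ 2)) ^ 2 := by ring
    _ = ((1 - 2 * (1 / 10 * q) * p + (1 / 10 * q) ^ 2) * (x.1 : ℂ).im) ^ 2 *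
        (((1 - (-(1 / 10) * p) ^ 2) ^ 2 * (w1 x : ℂ).im ^ 2)) := by rw [h1, h2]; ring
    _ = _ := by rw [h3]; ring

lemma VV_nonneg (x : Circle × Circle) : 0 ≤ VV x := by unfold VV; positivity

lemma VV_le (x : Circle × Circle) : VV (FF x) ≤ VV x := by
  have h := VV_FF x
  have hk := (alg_le (abs_re_le (z1 x)) (abs_re_le (w1 x))).1
  have hp := abs_re_le (z1 x)
  have hq := abs_re_le (w1 x)
  set q := (w1 x : ℂ).re
  set p := (z1 x : ℂ).re
  have hpos : 0 < ((1 - (1 / 10) ^ 2 * q ^ 2) *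
      (1 - 2 * (1 / 10) * p * q + (1 / 10) ^ 2 * p ^ 2)) ^ 2 := by
    have hp2 : p ^ 2 ≤ 1 := (sq_le_one_iff_abs_le_one p).mpr hp
    have hq2 : q ^ 2 ≤ 1 := (sq_le_one_iff_abs_le_one q).mpr hq
    have hpq1 : p * q ≤ 1 := by linarith [sq_nonneg (p - q), sub_sq p q]
    have e1 : 0 < 1 - (1 / 10) ^ 2 * q ^ 2 := by linarith
    have e2 : 0 < 1 - 2 * (1 / 10) * p * q + (1 / 10) ^ 2 * p ^ 2 := by
      linarith [sq_nonneg p]
    positivity
  have h2 : VV (FF x) * ((1 - (1 / 10) ^ 2 * q ^ 2) *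
      (1 - 2 * (1 / 10) * p * q + (1 / 10) ^ 2 * p ^ 2)) ^ 2 ≤ VV x * ((1 - (1 / 10) ^ 2 * q ^ 2) *
      (1 - 2 * (1 / 10) * p * q + (1 / 10) ^ 2 * p ^ 2)) ^ 2 := by
    rw [h, mul_comm (VV x)]
    exact mul_le_mul_of_nonneg_right hk (VV_nonneg x)
  exact le_of_mul_le_mul_right h2 hpos

lemma VV_eq (x : Circle × Circle) (hx : VV (FF x) = VV x) :
    VV x = 0 ∨ ((x.1 : ℂ).re = 0 ∧ (x.2 : ℂ).re = 0) := by
  by_cases h0 : VV x = 0
  · exact Or.inl h0
  right
  have h := VV_FF x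
  have hk := (alg_le (abs_re_le (z1 x)) (abs_re_le (w1 x))).2
  rw [hx, mul_comm (VV x)] at h
  have h2 := mul_right_cancel₀ h0 h
  obtain ⟨hp, hq⟩ := hk h2.symm
  have hw : (x.2 : ℂ).re = 0 := by
    have h3 : (str kap kap_ne x.2 : ℂ).re = 0 := hq
    rw [str_re] at h3
    rcases div_eq_zero_iff.mp h3 with h | h
    · exact h
    · exact absurd h (stv_norm_pos kap_ne x.2).ne'
  refine ⟨?_, hw⟩
  have h3 : (mob (del * (w1 x : ℂ).re) (mul_re_lt del_lt (w1 x)) x.1 : ℂ).re = 0 := hp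
  rw [mob_re, hq] at h3
  simpa using h3

/-! Behaviour on the invariant circles. -/

/-- if `Im w = 0` the second coordinate is fixed -/
lemma str_of_im_zero {w : Circle} (hw : (w : ℂ).im = 0) : str kap kap_ne w = w := by
  apply Circle.ext
  have h1 := circle_sq w
  rw [hw] at h1
  have h2 : ‖stv kap w‖ ^ 2 = 1 := by
    rw [stv_norm_sq, hw]
    linarith
  have h3 : ‖stv kap w‖ = 1 := by
    have := norm_nonneg (stv kap w)
    nlinarith
  apply Complex.ext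
  · rw [str_re, h3, div_one]
  · rw [str_im, h3, hw]; simp

lemma mob_of_im_zero {a : ℝ} (ha : |a| < 1) {z : Circle} (hz : (z : ℂ).im = 0) :
    mob a ha z = z := by
  apply Circle.ext
  have h1 := circle_sq z
  rw [hz] at h1
  have hD := mob_den_pos ha z
  have h2 : (z : ℂ).re ^ 2 = 1 := by linarith
  apply Complex.ext
  · rw [mob_re, div_eq_iff hD.ne']
    linear_combination (-2 * a) * h2
  · rw [mob_im, hz]; simp

lemma mob_re_sub {a : ℝ} (ha : |a| < 1) (z : Circle) :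
    (mob a ha z : ℂ).re - (z : ℂ).re =
      2 * a * (1 - (z : ℂ).re ^ 2) / (1 + 2 * a * (z : ℂ).re + a ^ 2) := by
  have hD := mob_den_pos ha z
  rw [mob_re, eq_div_iff hD.ne', sub_mul, div_mul_cancel₀ _ hD.ne']
  ring

lemma G_nonneg (c r : ℝ) (hc : c ^ 2 ≤ 1) (hr0 : 0 < r) (hr : r ^ 2 = 81 / 100 + 19 / 100 * c ^ 2) :
    0 ≤ r * (101 / 100 * c + 2 / 10) - c * (101 / 100 + 2 / 10 * c) ∧
    (r * (101 / 100 * c + 2 / 10) - c * (101 / 100 + 2 / 10 * c) = 0 → c ^ 2 = 1) := by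
  have hc1 : c ≤ 1 := by nlinarith
  have hc2 : -1 ≤ c := by nlinarith
  have hcc : 0 ≤ 1 - c ^ 2 := by linarith
  rcases le_or_gt 0 (101 / 100 * c + 2 / 10) with h | h
  · have h1 : 9 / 10 + 1 / 10 * c ^ 2 ≤ r := by
      have h2 : (9 / 10 + 1 / 10 * c ^ 2) ^ 2 ≤ r ^ 2 := by
        rw [hr]
        nlinarith [sq_nonneg c]
      exact le_of_sq_le_sq h2 hr0.le
    have h3 : (9 / 10 + 1 / 10 * c ^ 2) * (101 / 100 * c + 2 / 10) ≤ r * (101 / 100 * c + 2 / 10) :=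
      mul_le_mul_of_nonneg_right h1 h
    have h4 : (9 / 10 + 1 / 10 * c ^ 2) * (101 / 100 * c + 2 / 10) -
      c * (101 / 100 + 2 / 10 * c) = (1 - c ^ 2) * (18 / 100 - 101 / 1000 * c) := by ring
    have h5 : 0 < 18 / 100 - 101 / 1000 * c := by linarith
    have h6 := mul_nonneg hcc h5.le
    refine ⟨by linarith, fun h0 => ?_⟩
    have h7 : (1 - c ^ 2) * (18 / 100 - 101 / 1000 * c) = 0 := by linarith
    rcases mul_eq_zero.mp h7 with h | h
    · linarith
    · linarith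
  · have h1 : r ≤ 905 / 1000 + 95 / 1000 * c ^ 2 := by nlinarith [sq_nonneg (1 - r)]
    have h3 : (905 / 1000 + 95 / 1000 * c ^ 2) * (101 / 100 * c + 2 / 10) ≤
      r * (101 / 100 * c + 2 / 10) := mul_le_mul_of_nonpos_right h1 h.le
    have h4 : (905 / 1000 + 95 / 1000 * c ^ 2) * (101 / 100 * c + 2 / 10) -
      c * (101 / 100 + 2 / 10 * c) = (1 - c ^ 2) * (181 / 1000 - 9595 / 100000 * c) := by ring
    have h5 : 0 < 181 / 1000 - 9595 / 100000 * c := by linarith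
    have h6 := mul_nonneg hcc h5.le
    refine ⟨by linarith, fun h0 => ?_⟩
    have h7 : (1 - c ^ 2) * (181 / 1000 - 9595 / 100000 * c) = 0 := by linarith
    rcases mul_eq_zero.mp h7 with h | h
    · linarith
    · linarith

/-- behaviour on the circles `Im w = 0` -/
lemma edge_w (x : Circle × Circle) (hx : (x.2 : ℂ).im = 0) :
    ((FF x).2 : ℂ).im = 0 ∧ (-(((FF x).2 : ℂ).re * ((FF x).1 : ℂ).re)) ≤
      -((x.2 : ℂ).re * (x.1 : ℂ).re) ∧
    ((-(((FF x).2 : ℂ).re * ((FF x).1 : ℂ).re)) = -((x.2 : ℂ).re * (x.1 : ℂ).re) →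
      (x.1 : ℂ).im = 0) := by
  have h1 : w1 x = x.2 := str_of_im_zero hx
  have h2 : w2 x = x.2 := by
    unfold w2
    rw [h1]
    exact mob_of_im_zero _ hx
  have h3 : FF x = (z1 x, w2 x) := FF_apply' x
  have h4 := mob_re_sub (mul_re_lt del_lt (w1 x)) x.1
  have h5 := mob_den_pos (mul_re_lt del_lt (w1 x)) x.1
  change (z1 x : ℂ).re - (x.1 : ℂ).re = _ at h4
  have h6 := circle_sq x.2
  have h7 := circle_sq x.1
  rw [h3]
  simp only [h2]
  rw [h1] at h4 h5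
  set c := (x.1 : ℂ).re
  set t := (x.2 : ℂ).re
  rw [hx] at h6
  have ht : t ^ 2 = 1 := by linarith
  have h8 : t * ((z1 x : ℂ).re - c) = 2 * del * (1 - c ^ 2) / (1 + 2 * (del * t) * c + (del * t) ^ 2) := by
    rw [h4, ← mul_div_assoc]
    congr 1
    linear_combination (2 * del * (1 - c ^ 2)) * ht
  have h9 : 0 ≤ 1 - c ^ 2 := by rw [← h7]; nlinarith [sq_nonneg (x.1 : ℂ).im]
  have hdel : 0 < del := by norm_num [del]
  refine ⟨hx, ?_, fun h => ?_⟩
  · have : 0 ≤ t * ((z1 x : ℂ).re - c) := by rw [h8]; positivity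
    nlinarith
  · have h10 : t * ((z1 x : ℂ).re - c) = 0 := by linarith
    rw [h8, div_eq_zero_iff] at h10
    rcases h10 with h | h
    · rcases mul_eq_zero.mp h with h | h
      · linarith
      · have : (x.1 : ℂ).im ^ 2 = 0 := by linarith
        simpa using this
    · exact absurd h h5.ne'

/-- behaviour on the circles `Im z = 0` -/
lemma edge_z (x : Circle × Circle) (hx : (x.1 : ℂ).im = 0) :
    ((FF x).1 : ℂ).im = 0 ∧ (((FF x).1 : ℂ).re * ((FF x).2 : ℂ).re) ≤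
      (x.1 : ℂ).re * (x.2 : ℂ).re ∧
    ((((FF x).1 : ℂ).re * ((FF x).2 : ℂ).re) = (x.1 : ℂ).re * (x.2 : ℂ).re →
      (x.2 : ℂ).im = 0) := by
  have h1 : z1 x = x.1 := mob_of_im_zero _ hx
  have h3 : FF x = (z1 x, w2 x) := FF_apply' x
  rw [h3]
  simp only [h1]
  have h6 := circle_sq x.1
  have h7 := circle_sq x.2
  have hre := mob_re (mul_re_lt ndel_lt (z1 x)) (w1 x)
  have hD := mob_den_pos (mul_re_lt ndel_lt (z1 x)) (w1 x)
  change (w2 x : ℂ).re = _ at hre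
  rw [h1] at hre hD
  have hq : (w1 x : ℂ).re = (x.2 : ℂ).re / ‖stv kap x.2‖ := str_re kap_ne x.2
  have hr0 := stv_norm_pos kap_ne x.2
  have hr := stv_norm_sq kap x.2
  set s := (x.1 : ℂ).re
  set c := (x.2 : ℂ).re
  set r := ‖stv kap x.2‖
  set q := (w1 x : ℂ).re
  rw [hx] at h6
  have hs : s ^ 2 = 1 := by linarith
  have hqr : q * r = c := by rw [hq, div_mul_cancel₀ _ hr0.ne']
  have hc2 : c ^ 2 ≤ 1 := by nlinarith [sq_nonneg (x.2 : ℂ).im]
  have hr' : r ^ 2 = 81 / 100 + 19 / 100 * c ^ 2 := by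
    rw [hr]
    simp only [kap]
    linarith
  have hG := G_nonneg (s * c) r (by rw [mul_pow, hs, one_mul]; exact hc2) hr0
    (by rw [mul_pow, hs, one_mul]; exact hr')
  have hD2 : 1 + 2 * (-del * s) * q + (-del * s) ^ 2 = 101 / 100 - 2 / 10 * s * q := by
    simp only [del]
    linear_combination (1 / 100) * hs
  have hre' : (w2 x : ℂ).re * (101 / 100 - 2 / 10 * s * q) = 101 / 100 * q - 2 / 10 * s := by
    rw [hre, ← hD2, div_mul_cancel₀ _ hD.ne']
    simp only [del]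
    linear_combination (1 / 100 * q) * hs
  rw [hD2] at hD
  have hkey : (s * c - s * (w2 x : ℂ).re) * ((101 / 100 - 2 / 10 * s * q) * r) =
      r * (101 / 100 * (s * c) + 2 / 10) - s * c * (101 / 100 + 2 / 10 * (s * c)) := by
    have e1 : (s * c - s * (w2 x : ℂ).re) * ((101 / 100 - 2 / 10 * s * q) * r) =
      (s * c * (101 / 100 - 2 / 10 * s * q) -
        s * ((w2 x : ℂ).re * (101 / 100 - 2 / 10 * s * q))) * r := by ring
    rw [e1, hre']
    linear_combination (-(2 / 10) * c * s ^ 2 - 101 / 100 * s) * hqr + (2 / 10 * r) * hs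
  have hpos : 0 < (101 / 100 - 2 / 10 * s * q) * r := mul_pos hD hr0
  refine ⟨hx, ?_, fun h => ?_⟩
  · have h8 : 0 ≤ (s * c - s * (w2 x : ℂ).re) * ((101 / 100 - 2 / 10 * s * q) * r) := by
      rw [hkey]; exact hG.1
    have h9 := nonneg_of_mul_nonneg_left h8 hpos
    linarith
  · have h8 : (s * c - s * (w2 x : ℂ).re) = 0 := by linarith
    rw [h8, zero_mul] at hkey
    have h9 := hG.2 hkey.symm
    rw [mul_pow, hs, one_mul] at h9
    have : (x.2 : ℂ).im ^ 2 = 0 := by linarith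
    simpa using this

lemma rec_mono {X : Type*} [TopologicalSpace X] (T : X → X) (φ : X → ℝ) (hφ : Continuous φ) (x : X)
    (hrec : ∀ s ∈ 𝓝 x, ∃ᶠ n in atTop, T^[n] x ∈ s) (hmono : ∀ n, φ (T^[n + 1] x) ≤ φ (T^[n] x)) :
    φ (T x) = φ x := by
  have hanti : Antitone (fun n => φ (T^[n] x)) := antitone_nat_of_succ_le hmono
  apply le_antisymm (hmono 0)
  by_contra h
  push Not at h
  have hs : {y | φ (T x) < φ y} ∈ 𝓝 x := (isOpen_lt continuous_const hφ).mem_nhds h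
  obtain ⟨n, hn1, hn2⟩ := (hrec _ hs).forall_exists_of_atTop 1
  have h2 : φ (T^[n] x) ≤ φ (T^[1] x) := hanti hn1
  exact absurd hn2 (not_lt.mpr h2)

lemma continuous_coe_re : Continuous (fun z : Circle => (z : ℂ).re) :=
  Complex.continuous_re.comp (contMDiff_ic (n := ω)).continuous

lemma continuous_coe_im : Continuous (fun z : Circle => (z : ℂ).im) :=
  Complex.continuous_im.comp (contMDiff_ic (n := ω)).continuous

/-- the eight fixed points -/
def Special (x : Circle × Circle) : Prop :=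
  ((x.1 : ℂ).im = 0 ∧ (x.2 : ℂ).im = 0) ∨ ((x.1 : ℂ).re = 0 ∧ (x.2 : ℂ).re = 0)

lemma special_of_rec (x : Circle × Circle)
    (hrec : ∀ s ∈ 𝓝 x, ∃ᶠ n in atTop, (⇑FF)^[n] x ∈ s) : Special x := by
  have h1 : VV (FF x) = VV x := by
    apply rec_mono FF VV _ x hrec
    · intro n
      rw [Function.iterate_succ_apply']
      exact VV_le _
    · unfold VV
      exact ((continuous_coe_im.comp continuous_fst).pow 2).mul
        ((continuous_coe_im.comp continuous_snd).pow 2)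
  rcases VV_eq x h1 with h | h
  · left
    unfold VV at h
    rcases mul_eq_zero.mp h with h | h
    · have hz : (x.1 : ℂ).im = 0 := by simpa using h
      refine ⟨hz, ?_⟩
      have hinv : ∀ n, (((⇑FF)^[n] x).1 : ℂ).im = 0 := by
        intro n
        induction n with
        | zero => exact hz
        | succ n ih => rw [Function.iterate_succ_apply']; exact (edge_z _ ih).1
      have h2 := rec_mono FF (fun y => (y.1 : ℂ).re * (y.2 : ℂ).re)
        ((continuous_coe_re.comp continuous_fst).mul (continuous_coe_re.comp continuous_snd))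
        x hrec (fun n => by
          rw [Function.iterate_succ_apply']
          exact (edge_z _ (hinv n)).2.1)
      exact (edge_z x hz).2.2 h2
    · have hw : (x.2 : ℂ).im = 0 := by simpa using h
      refine ⟨?_, hw⟩
      have hinv : ∀ n, (((⇑FF)^[n] x).2 : ℂ).im = 0 := by
        intro n
        induction n with
        | zero => exact hw
        | succ n ih => rw [Function.iterate_succ_apply']; exact (edge_w _ ih).1
      have h2 := rec_mono FF (fun y => -((y.2 : ℂ).re * (y.1 : ℂ).re))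
        ((continuous_coe_re.comp continuous_snd).mul (continuous_coe_re.comp continuous_fst)).neg
        x hrec (fun n => by
          rw [Function.iterate_succ_apply']
          exact (edge_w _ (hinv n)).2.1)
      exact (edge_w x hw).2.2 h2
  · exact Or.inr h

lemma str_of_re_zero {w : Circle} (hw : (w : ℂ).re = 0) : str kap kap_ne w = w := by
  apply Circle.ext
  have h1 := circle_sq w
  rw [hw] at h1
  have h2 : ‖stv kap w‖ ^ 2 = kap ^ 2 := by
    rw [stv_norm_sq, hw]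
    have : (w : ℂ).im ^ 2 = 1 := by linarith
    rw [this]; ring
  have h3 : ‖stv kap w‖ = kap := by
    have h4 := norm_nonneg (stv kap w)
    have h5 : 0 ≤ kap := by norm_num [kap]
    exact (sq_eq_sq₀ h4 h5).mp h2
  apply Complex.ext
  · rw [str_re, h3, hw]; simp
  · rw [str_im, h3]
    exact mul_div_cancel_left₀ _ kap_ne

lemma mob_of_zero {a : ℝ} (ha : |a| < 1) (h0 : a = 0) (z : Circle) : mob a ha z = z := by
  apply Circle.ext
  rw [coe_mob, h0]
  simp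

lemma DD_special (x : Circle × Circle) (hx : Special x) : DD x = x := by
  rw [DD_apply]
  rcases hx with h | h
  · rw [str_of_im_zero h.2]
  · rw [str_of_re_zero h.2]

lemma S1_special (x : Circle × Circle) (hx : Special x) : S1 x = x := by
  rw [S1_apply]
  rcases hx with h | h
  · rw [mob_of_im_zero _ h.1]
  · rw [mob_of_zero _ (by rw [h.2, mul_zero])]

lemma S2_special (x : Circle × Circle) (hx : Special x) : S2 x = x := by
  rw [S2_apply]
  rcases hx with h | h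
  · rw [mob_of_im_zero _ h.2]
  · rw [mob_of_zero _ (by rw [h.1, mul_zero])]

lemma FF_special (x : Circle × Circle) (hx : Special x) : FF x = x := by
  rw [FF_apply, DD_special x hx, S1_special x hx, S2_special x hx]

end

end Pool.Agent.Work.MP_794bd6_an
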