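import Pool.Agent.Work.MP_794bd6_an.Der

set_option autoImplicit false
open Complex Set Filter Topology Manifold Bundle
open scoped ContDiff

namespace Pool.Agent.Work.MP_794bd6_an

noncomputable section

attribute [local instance] finrank_real_complex_fact'

lemma FF_symm_special (x : Circle × Circle) (hx : Special x) : FF.symm x = x := by
  have h := FF_special x hx
  conv_lhs => rw [← h]
  exact FF.symm_apply_apply x

lemma DA_symm (x : Circle × Circle) (hx : Special x) (u : E2) :
    DA FF.symm x (DA FF x u) = u := by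
  have h1 := hasDA FF x
  have h2 := hasDA FF.symm (FF x)
  have h3 := h2.comp x h1
  have h4 : (⇑FF.symm ∘ ⇑FF) = id := by
    funext y
    exact FF.symm_apply_apply y
  rw [h4] at h3
  have h5 := hasMFDerivAt_unique h3 (hasMFDerivAt_id x)
  have h6 : DA FF.symm (FF x) (DA FF x u) = u :=
    congrArg (fun (L : E2 →L[ℝ] E2) => L u) h5
  rw [FF_special x hx] at h6
  exact h6

/-- corners: eigenvectors -/
lemma FF_corner (x : Circle × Circle) (hx : (x.1 : ℂ).im = 0 ∧ (x.2 : ℂ).im = 0) :
    DA FF x (bv x 0) = ((1 - del * (x.2 : ℂ).re * (x.1 : ℂ).re) /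
      (1 + del * (x.2 : ℂ).re * (x.1 : ℂ).re)) • bv x 0 ∧
    DA FF x (bv x 1) = (kap * ((1 + del * (x.1 : ℂ).re * (x.2 : ℂ).re) /
      (1 - del * (x.1 : ℂ).re * (x.2 : ℂ).re))) • bv x 1 := by
  have hs : Special x := Or.inl hx
  have h1 := str_corner x hx
  have h2 := sh_corner del del_lt x hx S1 (S1_special x hs) (fun y => rfl)
  have h3 := sh2_corner (-del) ndel_lt x hx S2 (S2_special x hs) (fun y => rfl)
  constructor
  · rw [DA_FF x hs, h1.1, h2.1, map_smul, h3.2]
  · rw [DA_FF x hs, h1.2, map_smul, h2.2, map_smul, h3.1, smul_smul]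
    congr 2
    ring

lemma re_mul_re_corner (x : Circle × Circle) (hx : (x.1 : ℂ).im = 0 ∧ (x.2 : ℂ).im = 0) :
    (x.2 : ℂ).re * (x.1 : ℂ).re = 1 ∨ (x.2 : ℂ).re * (x.1 : ℂ).re = -1 := by
  have h1 := circle_sq x.1
  have h2 := circle_sq x.2
  rw [hx.1] at h1
  rw [hx.2] at h2
  have h3 : ((x.2 : ℂ).re * (x.1 : ℂ).re) ^ 2 = 1 := by
    rw [mul_pow]
    have : (x.2 : ℂ).re ^ 2 = 1 := by linarith
    rw [this]; linarith
  exact sq_eq_sq_iff_eq_or_eq_neg.mp (by rw [h3]; norm_num)

lemma lip_of_eigen (A : E2 →L[ℝ] E2) {e : E2} {a : ℝ} (ha : 0 < a) (h : A e = a • e) (m : ℕ) :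
    ‖e‖ * a ^ m ≤ ‖(A ^ m) e‖ := by
  have := (bounds_eigen A ha h e (Submodule.mem_span_singleton_self e) m).1
  linarith

/-- corners satisfy everything -/
lemma corner_all (x : Circle × Circle) (hx : (x.1 : ℂ).im = 0 ∧ (x.2 : ℂ).im = 0)
    (g : RiemannianMetric (fun x : Circle × Circle => TangentSpace IT x)) :
    (∃ s, IsPosExponentSum g FF x s) ∧ ∀ s, IsPosExponentSum g FF x s → 0 < s := by
  have hs : Special x := Or.inl hx
  have hfix := FF_special x hs
  obtain ⟨h0, h1⟩ := FF_corner x hx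
  have hb0 : bv x 0 ≠ 0 := (bv_li x).ne_zero 0
  have hb1 : bv x 1 ≠ 0 := (bv_li x).ne_zero 1
  have hprod : del * (x.1 : ℂ).re * (x.2 : ℂ).re = del * ((x.2 : ℂ).re * (x.1 : ℂ).re) := by ring
  have hprod2 : del * (x.2 : ℂ).re * (x.1 : ℂ).re = del * ((x.2 : ℂ).re * (x.1 : ℂ).re) := by ring
  rw [hprod2] at h0
  rw [hprod] at h1
  rcases re_mul_re_corner x hx with hc | hc
  · rw [hc] at h0 h1
    have e0 : (1 - del * 1) / (1 + del * 1) = 9 / 11 := by norm_num [del]
    have e1 : kap * ((1 + del * 1) / (1 - del * 1)) = 11 / 10 := by norm_num [del, kap]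
    rw [e0] at h0
    rw [e1] at h1
    refine ⟨?_, fun s hs' => ?_⟩
    · apply splitting_diag FF hfix (FF_symm_special x hs) (DA FF x) (DA FF.symm x) (hasDA FF x)
        (hasDA FF.symm x) (DA_symm x hs) g (bv x) (bv_li x) (bv_span x) ![9 / 11, 11 / 10]
      · intro i; fin_cases i <;> norm_num
      · intro i j hij
        fin_cases i <;> fin_cases j <;> first | rfl | (norm_num at hij)
      · intro i
        fin_cases i
        · exact h0
        · exact h1
    · exact pos_of_growth FF hfix (DA FF x) (hasDA FF x) g (bv x 1) (c := ‖bv x 1‖) (ρ := 11 / 10)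
        (norm_pos_iff.mpr hb1) (by norm_num)
        (fun m => lip_of_eigen (DA FF x) (by norm_num) h1 m) hs'
  · rw [hc] at h0 h1
    have e0 : (1 - del * -1) / (1 + del * -1) = 11 / 9 := by norm_num [del]
    have e1 : kap * ((1 + del * -1) / (1 - del * -1)) = 81 / 110 := by norm_num [del, kap]
    rw [e0] at h0
    rw [e1] at h1
    refine ⟨?_, fun s hs' => ?_⟩
    · apply splitting_diag FF hfix (FF_symm_special x hs) (DA FF x) (DA FF.symm x) (hasDA FF x)
        (hasDA FF.symm x) (DA_symm x hs) g (bv x) (bv_li x) (bv_span x) ![11 / 9, 81 / 110]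
      · intro i; fin_cases i <;> norm_num
      · intro i j hij
        fin_cases i <;> fin_cases j <;> first | rfl | (norm_num at hij)
      · intro i
        fin_cases i
        · exact h0
        · exact h1
    · exact pos_of_growth FF hfix (DA FF x) (hasDA FF x) g (bv x 0) (c := ‖bv x 0‖) (ρ := 11 / 9)
        (norm_pos_iff.mpr hb0) (by norm_num)
        (fun m => lip_of_eigen (DA FF x) (by norm_num) h0 m) hs'

/-! centers -/

/-- the orientation sign at a center -/
def sg (x : Circle × Circle) : ℝ := (x.1 : ℂ).im * (x.2 : ℂ).im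

lemma sg_center (x : Circle × Circle) (hx : (x.1 : ℂ).re = 0 ∧ (x.2 : ℂ).re = 0) :
    sg x ^ 2 = 1 := by
  have h1 := circle_sq x.1
  have h2 := circle_sq x.2
  rw [hx.1] at h1
  rw [hx.2] at h2
  unfold sg
  rw [mul_pow]
  have : (x.1 : ℂ).im ^ 2 = 1 := by linarith
  rw [this]; linarith

lemma FF_center (x : Circle × Circle) (hx : (x.1 : ℂ).re = 0 ∧ (x.2 : ℂ).re = 0) (s t : ℝ) :
    DA FF x (s • bv x 0 + t • bv x 1) =
      (s + 2 / 9 * sg x * t) • bv x 0 + (-(2 / 10) * sg x * s + 16 / 15 * t) • bv x 1 := by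
  have hs : Special x := Or.inr hx
  have h1 := str_center x hx
  have h2 := sh_center del del_lt x hx S1 (S1_special x hs) (fun y => rfl)
  have h3 := sh2_center (-del) ndel_lt x hx S2 (S2_special x hs) (fun y => rfl)
  have h4 := sg_center x hx
  have hsg : (x.1 : ℂ).im * (x.2 : ℂ).im = sg x := rfl
  rw [hsg] at h2 h3
  rw [DA_FF x hs]
  simp only [map_add, map_smul, h1.1, h1.2, h2.1, h2.2, h3.1, h3.2]
  simp only [kap, del]
  match_scalars
  · ring
  · linear_combination (-(2 / 45) * t) * h4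

/-- coordinates of a tangent vector -/
def cs (x : Circle × Circle) : E2 →L[ℝ] ℝ :=
  Complex.reCLM.comp ((ContinuousLinearMap.mul ℝ ℂ (I * (x.1 : ℂ))⁻¹).comp
    ((ContinuousLinearMap.fst ℝ ℂ ℂ).comp (BB x)))

def ct (x : Circle × Circle) : E2 →L[ℝ] ℝ :=
  Complex.reCLM.comp ((ContinuousLinearMap.mul ℝ ℂ (I * (x.2 : ℂ))⁻¹).comp
    ((ContinuousLinearMap.snd ℝ ℂ ℂ).comp (BB x)))

lemma cs_bv0 (x : Circle × Circle) : cs x (bv x 0) = 1 := by
  have h := I_mul_ne x.1
  simp only [cs, ContinuousLinearMap.comp_apply, BB_bv0]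
  simp only [ContinuousLinearMap.coe_fst', ContinuousLinearMap.mul_apply']
  rw [inv_mul_cancel₀ h]
  simp

lemma cs_bv1 (x : Circle × Circle) : cs x (bv x 1) = 0 := by
  simp only [cs, ContinuousLinearMap.comp_apply, BB_bv1]
  simp

lemma ct_bv0 (x : Circle × Circle) : ct x (bv x 0) = 0 := by
  simp only [ct, ContinuousLinearMap.comp_apply, BB_bv0]
  simp

lemma ct_bv1 (x : Circle × Circle) : ct x (bv x 1) = 1 := by
  have h := I_mul_ne x.2
  simp only [ct, ContinuousLinearMap.comp_apply, BB_bv1]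
  simp only [ContinuousLinearMap.coe_snd', ContinuousLinearMap.mul_apply']
  rw [inv_mul_cancel₀ h]
  simp

lemma exists_coords (x : Circle × Circle) (u : E2) :
    u = cs x u • bv x 0 + ct x u • bv x 1 := by
  have h : u ∈ Submodule.span ℝ (Set.range (bv x)) := by rw [bv_span]; exact Submodule.mem_top
  have h2 : Set.range (bv x) = {bv x 0, bv x 1} := by
    ext v
    simp only [Set.mem_range, Fin.exists_fin_two, Set.mem_insert_iff, Set.mem_singleton_iff]
    constructor
    · rintro (h | h)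
      · exact Or.inl h.symm
      · exact Or.inr h.symm
    · rintro (h | h)
      · exact Or.inl h.symm
      · exact Or.inr h.symm
  rw [h2, Submodule.mem_span_pair] at h
  obtain ⟨a, b, rfl⟩ := h
  simp only [map_add, map_smul, cs_bv0, cs_bv1, ct_bv0, ct_bv1, smul_eq_mul]
  simp

/-- the invariant quadratic form at a center -/
def qf (x : Circle × Circle) (u : E2) : ℝ :=
  2 / 10 * cs x u ^ 2 - 1 / 15 * sg x * (cs x u * ct x u) + 2 / 9 * ct x u ^ 2

lemma qf_cont (x : Circle × Circle) : Continuous (qf x) := by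
  unfold qf
  have h1 := (cs x).continuous
  have h2 := (ct x).continuous
  fun_prop

lemma qf_hom (x : Circle × Circle) (t : ℝ) (u : E2) : qf x (t • u) = t ^ 2 * qf x u := by
  unfold qf
  simp only [map_smul, smul_eq_mul]
  ring

lemma qf_pos (x : Circle × Circle) (hx : (x.1 : ℂ).re = 0 ∧ (x.2 : ℂ).re = 0) (u : E2)
    (hu : u ≠ 0) : 0 < qf x u := by
  unfold qf
  have h4 := sg_center x hx
  have h5 : cs x u ≠ 0 ∨ ct x u ≠ 0 := by
    by_contra hcon
    push Not at hcon
    apply hu
    rw [exists_coords x u, hcon.1, hcon.2]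
    simp
  have h6 : 2 / 10 * cs x u ^ 2 - 1 / 15 * sg x * (cs x u * ct x u) + 2 / 9 * ct x u ^ 2 =
      (1 / 6 * cs x u ^ 2 + 1 / 6 * ct x u ^ 2) + 1 / 30 * (cs x u - sg x * ct x u) ^ 2 +
        1 / 45 * ct x u ^ 2 := by
    linear_combination (-(1 / 30) * ct x u ^ 2) * h4
  rw [h6]
  rcases h5 with h | h
  · have : 0 < cs x u ^ 2 := by positivity
    positivity
  · have : 0 < ct x u ^ 2 := by positivity
    positivity

lemma qf_FF (x : Circle × Circle) (hx : (x.1 : ℂ).re = 0 ∧ (x.2 : ℂ).re = 0) (u : E2) :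
    qf x (DA FF x u) = (Real.sqrt (10 / 9)) ^ 2 * qf x u := by
  have h4 := sg_center x hx
  have hu := exists_coords x u
  have h1 := FF_center x hx (cs x u) (ct x u)
  rw [← hu] at h1
  have h2 : cs x (DA FF x u) = cs x u + 2 / 9 * sg x * ct x u := by
    rw [h1]
    simp only [map_add, map_smul, cs_bv0, cs_bv1, smul_eq_mul]
    ring
  have h3 : ct x (DA FF x u) = -(2 / 10) * sg x * cs x u + 16 / 15 * ct x u := by
    rw [h1]
    simp only [map_add, map_smul, ct_bv0, ct_bv1, smul_eq_mul]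
    ring
  rw [Real.sq_sqrt (by norm_num)]
  unfold qf
  rw [h2, h3]
  linear_combination (1 / 45 * cs x u ^ 2 + 2 / 675 * sg x * (cs x u * ct x u) -
    4 / 675 * ct x u ^ 2) * h4

lemma sqrt_gt : 1 < Real.sqrt (10 / 9) := by
  rw [Real.lt_sqrt (by norm_num)]
  norm_num

/-- centers satisfy everything -/
lemma center_all (x : Circle × Circle) (hx : (x.1 : ℂ).re = 0 ∧ (x.2 : ℂ).re = 0)
    (g : RiemannianMetric (fun x : Circle × Circle => TangentSpace IT x)) :
    (∃ s, IsPosExponentSum g FF x s) ∧ ∀ s, IsPosExponentSum g FF x s → 0 < s := by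
  have hs : Special x := Or.inr hx
  have hfix := FF_special x hs
  have hb0 : bv x 0 ≠ 0 := (bv_li x).ne_zero 0
  have hgt := sqrt_gt
  constructor
  · exact splitting_conf FF hfix (FF_symm_special x hs) (DA FF x) (DA FF.symm x) (hasDA FF x)
        (hasDA FF.symm x) (DA_symm x hs) g (qf x) (qf_cont x) (qf_pos x hx)
        (fun t u => qf_hom x t u) (ρ := Real.sqrt (10 / 9)) (by linarith) (qf_FF x hx)
  · intro s hs'
    obtain ⟨c, C, hc, hC, hb⟩ := conf_bounds (DA FF x) (qf x) (qf_cont x) (qf_pos x hx)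
        (fun t u => qf_hom x t u) (ρ := Real.sqrt (10 / 9)) (by linarith) (qf_FF x hx)
    have hn : 0 < ‖bv x 0‖ := norm_pos_iff.mpr hb0
    exact pos_of_growth FF hfix (DA FF x) (hasDA FF x) g (bv x 0) (c := c * ‖bv x 0‖)
        (ρ := Real.sqrt (10 / 9)) (by positivity) hgt
        (fun m => by
          have := (hb (bv x 0) m).1
          linarith) hs'

lemma special_all (x : Circle × Circle) (hx : Special x)
    (g : RiemannianMetric (fun x : Circle × Circle => TangentSpace IT x)) :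
    (∃ s, IsPosExponentSum g FF x s) ∧ ∀ s, IsPosExponentSum g FF x s → 0 < s := by
  rcases hx with h | h
  · exact corner_all x h g
  · exact center_all x h g

end

end Pool.Agent.Work.MP_794bd6_an
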