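import Mathlib

set_option autoImplicit false
open Complex Set Filter Topology Manifold
open scoped ContDiff

namespace Pool.Agent.Work.MP_794bd6_an

noncomputable section

attribute [local instance] finrank_real_complex_fact'

/-- model with corners of the torus -/
abbrev IT : ModelWithCorners ℝ (EuclideanSpace ℝ (Fin 1) × EuclideanSpace ℝ (Fin 1))
    (ModelProd (EuclideanSpace ℝ (Fin 1)) (EuclideanSpace ℝ (Fin 1))) := (𝓡 1).prod (𝓡 1)

/-- inclusion of the circle in the plane -/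
def ic (z : Circle) : ℂ := (z : ℂ)

lemma contMDiff_ic {n : WithTop ℕ∞} : ContMDiff (𝓡 1) 𝓘(ℝ, ℂ) n ic :=
  contMDiff_coe_sphere

/-- inclusion of the torus in `ℂ × ℂ` -/
def icc (x : Circle × Circle) : ℂ × ℂ := (ic x.1, ic x.2)

lemma contMDiff_icc {n : WithTop ℕ∞} : ContMDiff IT 𝓘(ℝ, ℂ × ℂ) n icc := by
  apply ContMDiff.prodMk_space
  · exact contMDiff_ic.comp contMDiff_fst
  · exact contMDiff_ic.comp contMDiff_snd

lemma circle_sq (z : Circle) : (z : ℂ).re ^ 2 + (z : ℂ).im ^ 2 = 1 := by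
  have h := Circle.normSq_coe z
  rw [normSq_apply] at h
  nlinarith

lemma abs_re_le (z : Circle) : |(z : ℂ).re| ≤ 1 := by
  have := abs_re_le_norm (z : ℂ)
  rwa [Circle.norm_coe] at this

/-- denominators do not vanish -/
lemma mob_den_ne {a : ℝ} (ha : |a| < 1) (z : Circle) : (1 : ℂ) + a * z ≠ 0 := by
  intro h
  have h1 : (a : ℂ) * z = -1 := by linear_combination h
  have h2 : ‖(a : ℂ) * z‖ = 1 := by rw [h1]; simp
  rw [norm_mul, Circle.norm_coe, mul_one, Complex.norm_real, Real.norm_eq_abs] at h2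
  linarith

lemma mob_norm {a : ℝ} (ha : |a| < 1) (z : Circle) : ‖((z : ℂ) + a) / (1 + a * z)‖ = 1 := by
  have h := mob_den_ne ha z
  have hz : ‖(z : ℂ)‖ = 1 := Circle.norm_coe z
  rw [norm_div, div_eq_one_iff_eq (by simpa using h)]
  have h1 : (z : ℂ) + a = z * (starRingEnd ℂ (1 + a * z)) := by
    have h2 : (z : ℂ) * starRingEnd ℂ (z : ℂ) = 1 := by
      rw [Complex.mul_conj, Circle.normSq_coe]; simp
    simp only [map_add, map_one, map_mul, Complex.conj_ofReal]
    linear_combination (-(a : ℂ)) * h2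
  rw [h1, norm_mul, hz, one_mul, Complex.norm_conj]

/-- The Mobius map `z ↦ (z + a) / (1 + a z)` of the circle. -/
def mob (a : ℝ) (ha : |a| < 1) (z : Circle) : Circle :=
  ⟨((z : ℂ) + a) / (1 + a * z), mem_sphere_zero_iff_norm.2 (mob_norm ha z)⟩

lemma coe_mob (a : ℝ) (ha : |a| < 1) (z : Circle) :
    (mob a ha z : ℂ) = ((z : ℂ) + a) / (1 + a * z) := rfl

lemma mul_re_lt {e : ℝ} (he : |e| < 1) (w : Circle) : |e * (w : ℂ).re| < 1 := by
  rw [abs_mul]
  have := abs_re_le w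
  have h0 := abs_nonneg (w : ℂ).re
  have h1 := abs_nonneg e
  nlinarith

/-- shear of the torus: `(z, w) ↦ (m_{e Re w}(z), w)` -/
def sh (e : ℝ) (he : |e| < 1) (x : Circle × Circle) : Circle × Circle :=
  (mob (e * (x.2 : ℂ).re) (mul_re_lt he x.2) x.1, x.2)

lemma mob_aux (a z : ℂ) (h1 : 1 + a * z ≠ 0) (h2 : 1 + (-a) * ((z + a) / (1 + a * z)) ≠ 0) :
    ((z + a) / (1 + a * z) + (-a)) / (1 + (-a) * ((z + a) / (1 + a * z))) = z := by
  rw [div_eq_iff h2]
  have ht : (z + a) / (1 + a * z) * (1 + a * z) = z + a := div_mul_cancel₀ _ h1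
  linear_combination ht

lemma mob_mob_neg (a : ℝ) (ha : |a| < 1) (ha' : |(-a)| < 1) (z : Circle) :
    mob (-a) ha' (mob a ha z) = z := by
  have h1 := mob_den_ne ha z
  have h2 := mob_den_ne ha' (mob a ha z)
  apply Circle.ext
  rw [coe_mob, coe_mob]
  rw [coe_mob] at h2
  have := mob_aux (a : ℂ) (z : ℂ) h1 (by push_cast at h2; exact h2)
  push_cast
  exact this

lemma sh_sh_neg (e : ℝ) (he : |e| < 1) (he' : |(-e)| < 1) (x : Circle × Circle) :
    sh (-e) he' (sh e he x) = x := by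
  obtain ⟨z, w⟩ := x
  simp only [sh]
  refine Prod.ext ?_ rfl
  simp only
  have := mob_mob_neg (e * (w : ℂ).re) (mul_re_lt he w) (by rw [abs_neg]; exact mul_re_lt he w) z
  rw [← this]
  congr 1
  · ring
  · congr 1

/-- linear stretch of the plane -/
def stv (k : ℝ) (w : ℂ) : ℂ := ⟨w.re, k * w.im⟩

lemma stv_ne {k : ℝ} (hk : k ≠ 0) (w : Circle) : stv k w ≠ 0 := by
  intro h
  have h1 : (w : ℂ).re = 0 := congrArg Complex.re h
  have h2 : k * (w : ℂ).im = 0 := congrArg Complex.im h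
  have h3 : (w : ℂ).im = 0 := by
    rcases mul_eq_zero.mp h2 with h | h
    · exact (hk h).elim
    · exact h
  have := circle_sq w
  rw [h1, h3] at this
  norm_num at this

lemma str_norm {k : ℝ} (hk : k ≠ 0) (w : Circle) :
    ‖stv k w * ((‖stv k w‖⁻¹ : ℝ) : ℂ)‖ = 1 := by
  have h := stv_ne hk w
  rw [norm_mul, Complex.norm_real, norm_inv, norm_norm]
  exact mul_inv_cancel₀ (by simpa using h)

/-- normalised stretch of the circle -/
def str (k : ℝ) (hk : k ≠ 0) (w : Circle) : Circle :=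
  ⟨stv k w * ((‖stv k w‖⁻¹ : ℝ) : ℂ), mem_sphere_zero_iff_norm.2 (str_norm hk w)⟩

lemma coe_str (k : ℝ) (hk : k ≠ 0) (w : Circle) :
    (str k hk w : ℂ) = stv k w * ((‖stv k w‖⁻¹ : ℝ) : ℂ) := rfl

lemma stv_mul_real (k : ℝ) (w : ℂ) (r : ℝ) : stv k (w * (r : ℂ)) = stv k w * (r : ℂ) := by
  apply Complex.ext
  · simp [stv]
  · simp [stv]
    ring

lemma stv_stv (k : ℝ) (hk : k ≠ 0) (w : ℂ) : stv k⁻¹ (stv k w) = w := by
  apply Complex.ext
  · simp [stv]
  · simp only [stv]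
    field_simp

lemma str_str_inv (k : ℝ) (hk : k ≠ 0) (w : Circle) :
    str k⁻¹ (inv_ne_zero hk) (str k hk w) = w := by
  apply Circle.ext
  rw [coe_str, coe_str, stv_mul_real, stv_stv k hk]
  have h := stv_ne hk w
  have h0 : 0 < ‖stv k w‖ := by simpa using h
  rw [norm_mul, Circle.norm_coe, one_mul, Complex.norm_real, norm_inv, norm_norm, inv_inv]
  have : ((‖stv k ↑w‖⁻¹ : ℝ) : ℂ) * ((‖stv k w‖ : ℝ) : ℂ) = 1 := by
    rw [← Complex.ofReal_mul, inv_mul_cancel₀ h0.ne']
    simp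
  rw [mul_assoc, this, mul_one]

/-! Smoothness -/

lemma contDiffAt_mob (e : ℝ) (p : ℂ × ℂ) (hp : (1 : ℂ) + (e * p.2.re : ℝ) * p.1 ≠ 0)
    {n : WithTop ℕ∞} :
    ContDiffAt ℝ n (fun q : ℂ × ℂ => (q.1 + ((e * q.2.re : ℝ) : ℂ)) /
      (1 + ((e * q.2.re : ℝ) : ℂ) * q.1)) p := by
  have h1 : ContDiff ℝ n (fun q : ℂ × ℂ => q.1) := contDiff_fst
  have h2 : ContDiff ℝ n (fun q : ℂ × ℂ => ((e * q.2.re : ℝ) : ℂ)) := by
    have h3 : ContDiff ℝ n (fun q : ℂ × ℂ => e * q.2.re) :=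
      contDiff_const.mul (Complex.reCLM.contDiff.comp contDiff_snd)
    exact Complex.ofRealCLM.contDiff.comp h3
  simp only [div_eq_mul_inv]
  apply ContDiffAt.mul
  · exact (h1.add h2).contDiffAt
  · apply ContDiffAt.inv
    · exact (contDiff_const.add (h2.mul h1)).contDiffAt
    · exact hp

lemma contMDiff_sh (e : ℝ) (he : |e| < 1) {n : WithTop ℕ∞} :
    ContMDiff IT IT n (sh e he) := by
  apply ContMDiff.prodMk
  · apply ContMDiff.codRestrict_sphere
    intro x
    have h1 := (contDiffAt_mob e (icc x) (mob_den_ne (mul_re_lt he x.2) x.1)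
      (n := n)).contMDiffAt
    exact h1.comp x (contMDiff_icc x)
  · exact contMDiff_snd

lemma contMDiff_str (k : ℝ) (hk : k ≠ 0) {n : WithTop ℕ∞} :
    ContMDiff (𝓡 1) (𝓡 1) n (str k hk) := by
  apply ContMDiff.codRestrict_sphere
  intro x
  have h0 : ContDiff ℝ n (stv k) := by
    have : stv k = fun w : ℂ => ((w.re : ℝ) : ℂ) + ((k * w.im : ℝ) : ℂ) * Complex.I := by
      funext w
      apply Complex.ext <;> simp [stv]
    rw [this]
    apply ContDiff.add
    · exact Complex.ofRealCLM.contDiff.comp Complex.reCLM.contDiff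
    · apply ContDiff.mul _ contDiff_const
      exact Complex.ofRealCLM.contDiff.comp (contDiff_const.mul Complex.imCLM.contDiff)
  have h1 : ContDiffAt ℝ n (fun w : ℂ => stv k w * ((‖stv k w‖⁻¹ : ℝ) : ℂ)) (ic x) := by
    apply ContDiffAt.mul h0.contDiffAt
    apply Complex.ofRealCLM.contDiff.contDiffAt.comp
    apply ContDiffAt.inv
    · exact (h0.contDiffAt).norm ℝ (stv_ne hk x)
    · exact norm_ne_zero_iff.mpr (stv_ne hk x)
  exact h1.contMDiffAt.comp x (contMDiff_ic x)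

/-- The shear as a real-analytic diffeomorphism. -/
def shD (e : ℝ) (he : |e| < 1) : Diffeomorph IT IT (Circle × Circle) (Circle × Circle) ω where
  toFun := sh e he
  invFun := sh (-e) (by rwa [abs_neg])
  left_inv x := sh_sh_neg e he (by rwa [abs_neg]) x
  right_inv x := by
    have := sh_sh_neg (-e) (by rwa [abs_neg]) (by rwa [neg_neg]) x
    convert! this using 2
    simp
  contMDiff_toFun := contMDiff_sh e he
  contMDiff_invFun := contMDiff_sh (-e) (by rwa [abs_neg])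

/-- The stretch as a real-analytic diffeomorphism of the circle. -/
def strD (k : ℝ) (hk : k ≠ 0) : Diffeomorph (𝓡 1) (𝓡 1) Circle Circle ω where
  toFun := str k hk
  invFun := str k⁻¹ (inv_ne_zero hk)
  left_inv x := str_str_inv k hk x
  right_inv x := by
    have := str_str_inv k⁻¹ (inv_ne_zero hk) x
    convert! this using 2
    simp
  contMDiff_toFun := contMDiff_str k hk
  contMDiff_invFun := contMDiff_str k⁻¹ (inv_ne_zero hk)

end

end Pool.Agent.Work.MP_794bd6_an
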